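import Mathlib
import Pool.Agent.H438R2.Sum

set_option autoImplicit false

/-! Metric results for exceptional sets with a power saving (helper84): sets of real numbers such that the numbers
`ξ β ^ n`, or `ξ α ^ n`, are near to a member of a thin set for infinitely many `n`; Hausdorff dimension. -/

namespace Pool.Agent.N84.MD

open Filter Set MeasureTheory
open scoped ENNReal

/-- Hausdorff-Cantelli for a sequence of finite families -/
theorem core {X : Type*} [EMetricSpace X] {ι : Type*} (T : ℕ → ι → Set X)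
    (D : ℝ) (hD : 0 < D) (F : ℕ → Finset ι) (r : ℕ → ℝ) (hr : ∀ n, 0 ≤ r n)
    (hdiam : ∀ n, ∀ i ∈ F n, Metric.ediam (T n i) ≤ ENNReal.ofReal (r n))
    (hsum : Summable fun n => ((F n).card : ℝ) * r n ^ D) :
    dimH {x | ∃ᶠ n in atTop, ∃ i ∈ F n, x ∈ T n i} ≤ ENNReal.ofReal D := by
  classical
  borelize X
  have h1 := Pool.Agent.H438R2.hc (X := X) (ι := Σ n : ℕ, {i // i ∈ F n}) (fun p => T p.1 p.2.1) D hD (by
    rw [ENNReal.tsum_sigma' (fun p : Σ n : ℕ, {i // i ∈ F n} => (Metric.ediam (T p.1 p.2.1)) ^ D)]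
    have h2 : ∀ n : ℕ, (∑' b : {i // i ∈ F n}, (Metric.ediam (T n b.1)) ^ D) ≤
        ENNReal.ofReal (((F n).card : ℝ) * r n ^ D) := by
      intro n
      rw [tsum_fintype]
      have h3 : ∀ b ∈ (Finset.univ : Finset {i // i ∈ F n}), (Metric.ediam (T n b.1)) ^ D ≤
          ENNReal.ofReal (r n ^ D) := by
        intro b _
        rw [← ENNReal.ofReal_rpow_of_nonneg (hr n) hD.le]
        exact ENNReal.rpow_le_rpow (hdiam n b.1 b.2) hD.le
      refine (Finset.sum_le_sum h3).trans ?_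
      rw [Finset.sum_const, Finset.card_univ, Fintype.card_coe, nsmul_eq_mul,
        ENNReal.ofReal_mul (Nat.cast_nonneg _), ENNReal.ofReal_natCast]
    refine ne_top_of_le_ne_top ?_ (ENNReal.tsum_le_tsum h2)
    rw [← ENNReal.ofReal_tsum_of_nonneg (fun n => mul_nonneg (Nat.cast_nonneg _) (Real.rpow_nonneg (hr n) _)) hsum]
    exact ENNReal.ofReal_ne_top)
  refine le_trans (dimH_mono ?_) h1
  intro x hx
  have hx' : {n | ∃ i ∈ F n, x ∈ T n i}.Infinite := Nat.frequently_atTop_iff_infinite.1 hx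
  show {p : Σ n : ℕ, {i // i ∈ F n} | x ∈ T p.1 p.2.1}.Infinite
  intro hfin
  apply hx'
  refine (hfin.image (fun p => p.1)).subset ?_
  rintro n ⟨i, hi, hxi⟩
  exact ⟨⟨n, ⟨i, hi⟩⟩, hxi, rfl⟩

/-- summability of the terms which occur -/
lemma summable_terms {β s κ D K C : ℝ} (hβ : 1 < β) (hC : 0 ≤ C) (hD : s < D * (1 - κ)) :
    Summable fun n : ℕ => K * (β ^ n) ^ s * (C * (β ^ n) ^ (κ - 1)) ^ D := by
  have hβ0 : 0 < β := by linarith
  have h1 : ∀ n : ℕ, K * (β ^ n) ^ s * (C * (β ^ n) ^ (κ - 1)) ^ D = K * C ^ D * (β ^ (s - D * (1 - κ))) ^ n := by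
    intro n
    have hp : (0 : ℝ) < β ^ n := by positivity
    rw [Real.mul_rpow hC (by positivity), ← Real.rpow_mul hp.le]
    have h2 : (β ^ n) ^ s * (β ^ n) ^ ((κ - 1) * D) = (β ^ (s - D * (1 - κ))) ^ n := by
      rw [← Real.rpow_add hp, ← Real.rpow_natCast β n, ← Real.rpow_mul hβ0.le, ← Real.rpow_natCast (β ^ _) n,
        ← Real.rpow_mul hβ0.le]
      congr 1
      ring
    rw [← h2]
    ring
  simp_rw [h1]
  apply Summable.mul_left
  apply summable_geometric_of_lt_one (by positivity)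
  exact Real.rpow_lt_one_of_one_lt_of_neg hβ (by linarith)

/-- all tuples near `ξ β ^ n`; the count is known for the tuples of positive integers -/
theorem mult_nat {ι : Type} [Fintype ι] (P : (ι → ℕ) → Prop) {s κ : ℝ} (hs : 0 ≤ s) (hκ : κ < 1)
    (hP : ∀ ε : ℝ, 0 < ε → ∃ K : ℝ, ∀ X : ℕ, 1 ≤ X →
      ({t : ι → ℕ | (∀ i, 1 ≤ t i ∧ t i ≤ X) ∧ ¬ P t}.ncard : ℝ) ≤ K * (X : ℝ) ^ (s + ε))
    (B : Set ℝ) (hB : B.Countable) (hB1 : ∀ β ∈ B, 1 < β) :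
    dimH {ξ : ι → ℝ | ¬ ∀ β ∈ B, ∀ᶠ n : ℕ in atTop, ∀ t : ι → ℕ,
      (∀ i, 1 ≤ t i ∧ |(t i : ℝ) - ξ i * β ^ n| ≤ (β ^ n) ^ κ) → P t} ≤ ENNReal.ofReal (s / (1 - κ)) := by
  classical
  have hκ' : 0 < 1 - κ := by linarith
  -- one base, bounded `ξ`, any larger dimension
  have key : ∀ β ∈ B, ∀ R : ℕ, ∀ D : ℝ, s / (1 - κ) < D →
      dimH {ξ : ι → ℝ | (∀ i, |ξ i| ≤ R) ∧ ∃ᶠ n : ℕ in atTop, ∃ t : ι → ℕ,
        (∀ i, 1 ≤ t i ∧ |(t i : ℝ) - ξ i * β ^ n| ≤ (β ^ n) ^ κ) ∧ ¬ P t} ≤ ENNReal.ofReal D := by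
    intro β hβB R D hD
    have hβ := hB1 β hβB
    have hβ0 : 0 < β := by linarith
    have hD0 : 0 < D := lt_of_le_of_lt (div_nonneg hs hκ'.le) hD
    have hsD : s < D * (1 - κ) := by rwa [div_lt_iff₀ hκ'] at hD
    obtain ⟨ε, hε⟩ : ∃ ε, ε = (D * (1 - κ) - s) / 2 := ⟨_, rfl⟩
    have hε0 : 0 < ε := by rw [hε]; linarith
    obtain ⟨K, hK⟩ := hP ε hε0
    obtain ⟨F, hF⟩ : ∃ F : ℕ → Finset (ι → ℕ), ∀ n t, t ∈ F n ↔ (∀ i, 1 ≤ t i ∧ t i ≤ ⌊((R : ℝ) + 1) * β ^ n⌋₊) ∧ ¬ P t := by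
      refine ⟨fun n => (Fintype.piFinset (fun _ : ι => Finset.Icc 1 ⌊((R : ℝ) + 1) * β ^ n⌋₊)).filter (fun t => ¬ P t),
        fun n t => ?_⟩
      rw [Finset.mem_filter, Fintype.mem_piFinset]
      simp only [Finset.mem_Icc]
    have hpow1 : ∀ n : ℕ, (1 : ℝ) ≤ β ^ n := fun n => one_le_pow₀ hβ.le
    have hcard : ∀ n, ((F n).card : ℝ) ≤ |K| * ((R : ℝ) + 1) ^ (s + ε) * (β ^ n) ^ (s + ε) := by
      intro n
      have hX : 1 ≤ ⌊((R : ℝ) + 1) * β ^ n⌋₊ := Nat.le_floor (by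
        have := hpow1 n
        have hR : (0 : ℝ) ≤ R := Nat.cast_nonneg _
        push_cast
        nlinarith)
      have h1 := hK _ hX
      have h2 : {t : ι → ℕ | (∀ i, 1 ≤ t i ∧ t i ≤ ⌊((R : ℝ) + 1) * β ^ n⌋₊) ∧ ¬ P t} = (F n : Set (ι → ℕ)) := by
        ext t
        simp only [Set.mem_ofPred_eq, Finset.mem_coe]
        exact (hF n t).symm
      rw [h2, Set.ncard_coe_finset] at h1
      refine h1.trans ?_
      have h3 : ((⌊((R : ℝ) + 1) * β ^ n⌋₊ : ℕ) : ℝ) ≤ ((R : ℝ) + 1) * β ^ n := Nat.floor_le (by positivity)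
      have h4 : ((⌊((R : ℝ) + 1) * β ^ n⌋₊ : ℕ) : ℝ) ^ (s + ε) ≤ (((R : ℝ) + 1) * β ^ n) ^ (s + ε) :=
        Real.rpow_le_rpow (Nat.cast_nonneg _) h3 (by linarith)
      rw [Real.mul_rpow (by positivity) (by positivity)] at h4
      calc K * ((⌊((R : ℝ) + 1) * β ^ n⌋₊ : ℕ) : ℝ) ^ (s + ε)
          ≤ |K| * ((⌊((R : ℝ) + 1) * β ^ n⌋₊ : ℕ) : ℝ) ^ (s + ε) :=
            mul_le_mul_of_nonneg_right (le_abs_self K) (by positivity)
        _ ≤ |K| * (((R : ℝ) + 1) ^ (s + ε) * (β ^ n) ^ (s + ε)) := mul_le_mul_of_nonneg_left h4 (abs_nonneg _)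
        _ = _ := by ring
    have hc := core (X := ι → ℝ) (fun n t => {ξ : ι → ℝ | ∀ i, |(t i : ℝ) - ξ i * β ^ n| ≤ (β ^ n) ^ κ}) D hD0 F
      (fun n => 2 * (β ^ n) ^ (κ - 1)) (fun n => by positivity) (fun n t _ => by
        refine Metric.ediam_le fun ξ hξ ξ' hξ' => ?_
        rw [edist_pi_le_iff]
        intro i
        rw [edist_dist, Real.dist_eq]
        refine ENNReal.ofReal_le_ofReal ?_
        have hp : (0 : ℝ) < β ^ n := by positivity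
        have h1 := hξ i
        have h2 := hξ' i
        have h3 : |ξ i - ξ' i| * β ^ n ≤ 2 * (β ^ n) ^ κ := by
          rw [← abs_of_pos hp, ← abs_mul, abs_of_pos hp]
          have : (ξ i - ξ' i) * β ^ n = ((t i : ℝ) - ξ' i * β ^ n) - ((t i : ℝ) - ξ i * β ^ n) := by ring
          rw [this]
          calc _ ≤ |(t i : ℝ) - ξ' i * β ^ n| + |(t i : ℝ) - ξ i * β ^ n| := abs_sub _ _
            _ ≤ _ := by linarith
        rw [Real.rpow_sub_one hp.ne', mul_div_assoc', le_div_iff₀ hp]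
        exact h3) (by
        refine Summable.of_nonneg_of_le (fun n => by positivity) (fun n => ?_)
          (summable_terms (β := β) (s := s + ε) (κ := κ) (D := D) (K := |K| * ((R : ℝ) + 1) ^ (s + ε)) (C := 2) hβ
            (by norm_num) (by rw [hε]; linarith))
        exact mul_le_mul_of_nonneg_right (hcard n) (by positivity))
    refine le_trans (dimH_mono ?_) hc
    rintro ξ ⟨hξR, hξ⟩
    refine hξ.mono fun n => ?_
    rintro ⟨t, ht, htP⟩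
    refine ⟨t, (hF n t).2 ⟨fun i => ⟨(ht i).1, ?_⟩, htP⟩, fun i => (ht i).2⟩
    apply Nat.le_floor
    have h1 := (abs_le.1 (ht i).2).2
    have h2 := (abs_le.1 (hξR i)).2
    have hp := hpow1 n
    have h3 : (β ^ n) ^ κ ≤ β ^ n := by
      calc (β ^ n) ^ κ ≤ (β ^ n) ^ (1 : ℝ) := Real.rpow_le_rpow_of_exponent_le hp hκ.le
        _ = β ^ n := Real.rpow_one _
    nlinarith
  -- all of them
  have key2 : ∀ β ∈ B, ∀ R : ℕ, dimH {ξ : ι → ℝ | (∀ i, |ξ i| ≤ R) ∧ ∃ᶠ n : ℕ in atTop, ∃ t : ι → ℕ,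
        (∀ i, 1 ≤ t i ∧ |(t i : ℝ) - ξ i * β ^ n| ≤ (β ^ n) ^ κ) ∧ ¬ P t} ≤ ENNReal.ofReal (s / (1 - κ)) := by
    intro β hβ R
    refine le_of_forall_gt fun c hc => ?_
    by_cases hc1 : c = ⊤
    · rw [hc1]
      exact lt_of_le_of_lt (key β hβ R (s / (1 - κ) + 1) (by linarith)) ENNReal.ofReal_lt_top
    · obtain ⟨c', rfl⟩ : ∃ c' : NNReal, c = c' := ⟨c.toNNReal, (ENNReal.coe_toNNReal hc1).symm⟩
      have h1 : s / (1 - κ) < (c' : ℝ) := by
        rw [ENNReal.ofReal, ENNReal.coe_lt_coe] at hc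
        have := Real.le_coe_toNNReal (s / (1 - κ))
        exact lt_of_le_of_lt this (by exact_mod_cast hc)
      obtain ⟨D, hD1, hD2⟩ := exists_between h1
      refine lt_of_le_of_lt (key β hβ R D hD1) ?_
      rw [← ENNReal.ofReal_coe_nnreal]
      exact (ENNReal.ofReal_lt_ofReal_iff (lt_of_le_of_lt (div_nonneg hs hκ'.le) h1)).2 hD2
  refine le_trans (dimH_mono (t := ⋃ β ∈ B, ⋃ R : ℕ, {ξ : ι → ℝ | (∀ i, |ξ i| ≤ R) ∧ ∃ᶠ n : ℕ in atTop, ∃ t : ι → ℕ,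
        (∀ i, 1 ≤ t i ∧ |(t i : ℝ) - ξ i * β ^ n| ≤ (β ^ n) ^ κ) ∧ ¬ P t}) ?_) ?_
  · intro ξ hξ
    rw [Set.mem_ofPred_eq] at hξ
    push Not at hξ
    obtain ⟨β, hβ, h1⟩ := hξ
    rw [Set.mem_iUnion₂]
    refine ⟨β, hβ, ?_⟩
    rw [Set.mem_iUnion]
    obtain ⟨R, hR⟩ := exists_nat_ge (∑ i, |ξ i|)
    refine ⟨R, fun i => le_trans (Finset.single_le_sum (f := fun i => |ξ i|) (fun i _ => abs_nonneg _) (Finset.mem_univ i)) hR, ?_⟩
    exact h1
  · rw [dimH_bUnion hB]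
    refine iSup₂_le fun β hβ => ?_
    rw [dimH_iUnion]
    exact iSup_le fun R => key2 β hβ R

end Pool.Agent.N84.MD
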