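import Mathlib
import Pool.Agent.N84.MD.A
import Pool.Agent.H107.MetricExc

set_option autoImplicit false

/-! Metric results for exceptional sets with a power saving (helper84): one integer parameter, the numbers `ξ β ^ n`
for almost all `ξ` and `ξ α ^ n` for almost all `α`, rational parameters. -/

namespace Pool.Agent.N84.MD

open Filter Set MeasureTheory
open scoped ENNReal

/-- a bound for the dimension by all larger numbers -/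
lemma dim_le_of_forall {X : Type*} [EMetricSpace X] {E : Set X} {d : ℝ} (hd : 0 ≤ d)
    (h : ∀ D : ℝ, d < D → dimH E ≤ ENNReal.ofReal D) : dimH E ≤ ENNReal.ofReal d := by
  refine le_of_forall_gt fun c hc => ?_
  by_cases hc1 : c = ⊤
  · rw [hc1]
    exact lt_of_le_of_lt (h (d + 1) (by linarith)) ENNReal.ofReal_lt_top
  · obtain ⟨c', rfl⟩ : ∃ c' : NNReal, c = c' := ⟨c.toNNReal, (ENNReal.coe_toNNReal hc1).symm⟩
    have h1 : d < (c' : ℝ) := by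
      rw [ENNReal.ofReal, ENNReal.coe_lt_coe] at hc
      have := Real.le_coe_toNNReal d
      exact lt_of_le_of_lt this (by exact_mod_cast hc)
    obtain ⟨D, hD1, hD2⟩ := exists_between h1
    refine lt_of_le_of_lt (h D hD1) ?_
    rw [← ENNReal.ofReal_coe_nnreal]
    exact (ENNReal.ofReal_lt_ofReal_iff (lt_of_le_of_lt hd h1)).2 hD2

/-- one parameter: all integers near `ξ β ^ n` -/
theorem mult_one (P : ℕ → Prop) {s κ : ℝ} (hs : 0 ≤ s) (hκ : κ < 1)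
    (hP : ∀ ε : ℝ, 0 < ε → ∃ K : ℝ, ∀ X : ℕ, 1 ≤ X →
      ({t : ℕ | (1 ≤ t ∧ t ≤ X) ∧ ¬ P t}.ncard : ℝ) ≤ K * (X : ℝ) ^ (s + ε))
    (B : Set ℝ) (hB : B.Countable) (hB1 : ∀ β ∈ B, 1 < β) :
    dimH {ξ : ℝ | ¬ ∀ β ∈ B, ∀ᶠ n : ℕ in atTop, ∀ t : ℕ,
      1 ≤ t → |(t : ℝ) - ξ * β ^ n| ≤ (β ^ n) ^ κ → P t} ≤ ENNReal.ofReal (s / (1 - κ)) := by
  have h1 := mult_nat (ι := Unit) (fun t => P (t ())) hs hκ (fun ε hε => by
    obtain ⟨K, hK⟩ := hP ε hε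
    refine ⟨K, fun X hX => le_trans (le_of_eq ?_) (hK X hX)⟩
    have h2 : {t : Unit → ℕ | (∀ i, 1 ≤ t i ∧ t i ≤ X) ∧ ¬ P (t ())} =
        (fun t : ℕ => (fun _ : Unit => t)) '' {t : ℕ | (1 ≤ t ∧ t ≤ X) ∧ ¬ P t} := by
      ext t
      constructor
      · rintro ⟨h3, h4⟩
        exact ⟨t (), ⟨h3 (), h4⟩, by funext i; rfl⟩
      · rintro ⟨w, ⟨h3, h4⟩, rfl⟩
        exact ⟨fun _ => h3, h4⟩
    rw [h2, Set.ncard_image_of_injective]
    intro a b hab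
    exact congrFun hab ()) B hB hB1
  have hiso : Isometry (fun ξ : ℝ => (fun _ : Unit => ξ)) := by
    intro x y
    exact edist_pi_const x y
  rw [← hiso.dimH_image]
  refine le_trans (dimH_mono ?_) h1
  rintro _ ⟨ξ, hξ, rfl⟩ h2
  apply hξ
  intro β hβ
  filter_upwards [h2 β hβ] with n hn t ht h3
  exact hn (fun _ => t) (fun _ => ⟨ht, h3⟩)

lemma pow_diff {a x y : ℝ} (ha : 0 ≤ a) (hx : a ≤ x) (hxy : x ≤ y) (m : ℕ) :
    (y - x) * a ^ m ≤ y ^ (m + 1) - x ^ (m + 1) := by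
  have h1 : x ^ m ≤ y ^ m := pow_le_pow_left₀ (ha.trans hx) hxy m
  have h2 : a ^ m ≤ y ^ m := pow_le_pow_left₀ ha (hx.trans hxy) m
  have h3 : x * x ^ m ≤ x * y ^ m := mul_le_mul_of_nonneg_left h1 (ha.trans hx)
  have h4 : (y - x) * a ^ m ≤ (y - x) * y ^ m := mul_le_mul_of_nonneg_left h2 (by linarith)
  rw [pow_succ, pow_succ]
  nlinarith

/-- one parameter: all integers near `ξ α ^ n`, `ξ` given, in terms of `α` -/
theorem pow_one (P : ℕ → Prop) {s κ : ℝ} (hs : 0 ≤ s) (hκ0 : 0 ≤ κ) (hκ : κ < 1)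
    (hP : ∀ ε : ℝ, 0 < ε → ∃ K : ℝ, ∀ X : ℕ, 1 ≤ X →
      ({t : ℕ | (1 ≤ t ∧ t ≤ X) ∧ ¬ P t}.ncard : ℝ) ≤ K * (X : ℝ) ^ (s + ε))
    (Ξ : Set ℝ) (hΞ : Ξ.Countable) (hΞ0 : ∀ ξ ∈ Ξ, 0 < ξ) :
    dimH {α : ℝ | 1 < α ∧ ¬ ∀ ξ ∈ Ξ, ∀ᶠ n : ℕ in atTop, ∀ t : ℕ,
      1 ≤ t → |(t : ℝ) - ξ * α ^ n| ≤ (α ^ n) ^ κ → P t} ≤ ENNReal.ofReal (s / (1 - κ)) := by
  classical
  have hκ' : 0 < 1 - κ := by linarith
  have hd0 : 0 ≤ s / (1 - κ) := div_nonneg hs hκ'.le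
  have key : ∀ ξ ∈ Ξ, dimH {α : ℝ | 1 < α ∧ ∃ᶠ n : ℕ in atTop, ∃ t : ℕ,
      1 ≤ t ∧ |(t : ℝ) - ξ * α ^ n| ≤ (α ^ n) ^ κ ∧ ¬ P t} ≤ ENNReal.ofReal (s / (1 - κ)) := by
    intro ξ hξΞ
    have hξ := hΞ0 ξ hξΞ
    refine dim_le_of_forall hd0 fun D hD => ?_
    by_contra hcon
    push Not at hcon
    obtain ⟨x, hxE, hx⟩ := exists_mem_nhdsWithin_lt_dimH_of_lt_dimH hcon
    have hx1 : 1 < x := hxE.1
    have hx0 : 0 < x := by linarith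
    have hD0 : 0 < D := lt_of_le_of_lt hd0 hD
    have hsD : s < D * (1 - κ) := by rwa [div_lt_iff₀ hκ'] at hD
    obtain ⟨ε, hε⟩ : ∃ ε, ε = (D * (1 - κ) - s) / 2 := ⟨_, rfl⟩
    have hε0 : 0 < ε := by rw [hε]; linarith
    obtain ⟨K, hK⟩ := hP ε hε0
    obtain ⟨η, hη0, hη1, hη2⟩ : ∃ η : ℝ, 0 < η ∧ η < 1 ∧ η * (D * κ + D + s + ε) < ε := by
      refine ⟨min (1 / 2) (ε / (2 * (D * κ + D + s + ε))), ?_, ?_, ?_⟩
      · exact lt_min (by norm_num) (by positivity)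
      · exact lt_of_le_of_lt (min_le_left _ _) (by norm_num)
      · have hW : 0 < D * κ + D + s + ε := by positivity
        have h1 : min (1 / 2) (ε / (2 * (D * κ + D + s + ε))) * (D * κ + D + s + ε) ≤
            ε / (2 * (D * κ + D + s + ε)) * (D * κ + D + s + ε) :=
          mul_le_mul_of_nonneg_right (min_le_right _ _) hW.le
        have h2 : ε / (2 * (D * κ + D + s + ε)) * (D * κ + D + s + ε) = ε / 2 := by
          field_simp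
        linarith
    -- the window
    obtain ⟨a, hadef⟩ : ∃ a : ℝ, a = x ^ (1 - η) := ⟨_, rfl⟩
    obtain ⟨b, hbdef⟩ : ∃ b : ℝ, b = x ^ (1 + η) := ⟨_, rfl⟩
    have ha1 : 1 < a := by rw [hadef]; exact Real.one_lt_rpow hx1 (by linarith)
    have hax : a < x := by
      rw [hadef]
      calc x ^ (1 - η) < x ^ (1 : ℝ) := Real.rpow_lt_rpow_of_exponent_lt hx1 (by linarith)
        _ = x := Real.rpow_one x
    have hxb : x < b := by
      rw [hbdef]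
      calc x = x ^ (1 : ℝ) := (Real.rpow_one x).symm
        _ < x ^ (1 + η) := Real.rpow_lt_rpow_of_exponent_lt hx1 (by linarith)
    have hb1 : 1 < b := hx1.trans hxb
    have ha0 : 0 < a := by linarith
    have hb0 : 0 < b := by linarith
    have han : ∀ n : ℕ, a ^ n = (x ^ n) ^ (1 - η) := by
      intro n
      rw [hadef, ← Real.rpow_natCast (x ^ (1 - η)) n, ← Real.rpow_mul hx0.le, ← Real.rpow_natCast x n, ← Real.rpow_mul hx0.le]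
      congr 1
      ring
    have hbn : ∀ n : ℕ, b ^ n = (x ^ n) ^ (1 + η) := by
      intro n
      rw [hbdef, ← Real.rpow_natCast (x ^ (1 + η)) n, ← Real.rpow_mul hx0.le, ← Real.rpow_natCast x n, ← Real.rpow_mul hx0.le]
      congr 1
      ring
    obtain ⟨F, hF⟩ : ∃ F : ℕ → Finset ℕ, ∀ n t, t ∈ F n ↔ (1 ≤ t ∧ t ≤ ⌊(ξ + 1) * b ^ n⌋₊) ∧ ¬ P t := by
      refine ⟨fun n => (Finset.Icc 1 ⌊(ξ + 1) * b ^ n⌋₊).filter (fun t => ¬ P t), fun n t => ?_⟩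
      rw [Finset.mem_filter, Finset.mem_Icc]
    have hpow1 : ∀ n : ℕ, (1 : ℝ) ≤ b ^ n := fun n => one_le_pow₀ hb1.le
    have hcard : ∀ n, ((F n).card : ℝ) ≤ |K| * (ξ + 1) ^ (s + ε) * (x ^ n) ^ ((1 + η) * (s + ε)) := by
      intro n
      have hX : 1 ≤ ⌊(ξ + 1) * b ^ n⌋₊ := Nat.le_floor (by
        have := hpow1 n
        push_cast
        nlinarith)
      have h1 := hK _ hX
      have h2 : {t : ℕ | (1 ≤ t ∧ t ≤ ⌊(ξ + 1) * b ^ n⌋₊) ∧ ¬ P t} = (F n : Set ℕ) := by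
        ext t
        simp only [Set.mem_ofPred_eq, Finset.mem_coe]
        exact (hF n t).symm
      rw [h2, Set.ncard_coe_finset] at h1
      refine h1.trans ?_
      have h3 : ((⌊(ξ + 1) * b ^ n⌋₊ : ℕ) : ℝ) ≤ (ξ + 1) * b ^ n := Nat.floor_le (by positivity)
      have h4 : ((⌊(ξ + 1) * b ^ n⌋₊ : ℕ) : ℝ) ^ (s + ε) ≤ ((ξ + 1) * b ^ n) ^ (s + ε) :=
        Real.rpow_le_rpow (Nat.cast_nonneg _) h3 (by linarith)
      rw [Real.mul_rpow (by positivity) (by positivity), hbn, ← Real.rpow_mul (by positivity)] at h4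
      rw [hbn] at *
      calc K * ((⌊(ξ + 1) * (x ^ n) ^ (1 + η)⌋₊ : ℕ) : ℝ) ^ (s + ε)
          ≤ |K| * ((⌊(ξ + 1) * (x ^ n) ^ (1 + η)⌋₊ : ℕ) : ℝ) ^ (s + ε) :=
            mul_le_mul_of_nonneg_right (le_abs_self K) (by positivity)
        _ ≤ |K| * ((ξ + 1) ^ (s + ε) * (x ^ n) ^ ((1 + η) * (s + ε))) := mul_le_mul_of_nonneg_left h4 (abs_nonneg _)
        _ = _ := by ring
    obtain ⟨κ', hκ'def⟩ : ∃ κ' : ℝ, κ' = κ * (1 + η) + η := ⟨_, rfl⟩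
    have hc := core (X := ℝ) (fun (n : ℕ) (t : ℕ) => {α : ℝ | a < α ∧ α < b ∧ 1 ≤ n ∧ |(t : ℝ) - ξ * α ^ n| ≤ (α ^ n) ^ κ}) D hD0 F
      (fun n => (2 * a / ξ) * (x ^ n) ^ (κ' - 1)) (fun n => by positivity) (fun n t _ => by
        refine Metric.ediam_le fun α hα α' hα' => ?_
        rw [edist_dist, Real.dist_eq]
        refine ENNReal.ofReal_le_ofReal ?_
        obtain ⟨h1, h2, h3, h4⟩ := hα
        obtain ⟨h1', h2', -, h4'⟩ := hα'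
        obtain ⟨m, rfl⟩ : ∃ m, n = m + 1 := ⟨n - 1, by omega⟩
        have hα0 : 0 < α := ha0.trans h1
        have hα0' : 0 < α' := ha0.trans h1'
        have e1 : (α ^ (m + 1)) ^ κ ≤ (b ^ (m + 1)) ^ κ :=
          Real.rpow_le_rpow (by positivity) (pow_le_pow_left₀ (by linarith) h2.le _) hκ0
        have e2 : (α' ^ (m + 1)) ^ κ ≤ (b ^ (m + 1)) ^ κ :=
          Real.rpow_le_rpow (by positivity) (pow_le_pow_left₀ (by linarith) h2'.le _) hκ0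
        have e3 : ξ * |α ^ (m + 1) - α' ^ (m + 1)| ≤ 2 * (b ^ (m + 1)) ^ κ := by
          have e0 : ξ * |α ^ (m + 1) - α' ^ (m + 1)| = |ξ * (α ^ (m + 1) - α' ^ (m + 1))| := by
            rw [abs_mul, abs_of_pos hξ]
          have : ξ * (α ^ (m + 1) - α' ^ (m + 1)) =
              ((t : ℝ) - ξ * α' ^ (m + 1)) - ((t : ℝ) - ξ * α ^ (m + 1)) := by ring
          rw [e0, this]
          calc _ ≤ |(t : ℝ) - ξ * α' ^ (m + 1)| + |(t : ℝ) - ξ * α ^ (m + 1)| := abs_sub _ _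
            _ ≤ _ := by linarith
        have e4 : |α - α'| * a ^ m ≤ |α ^ (m + 1) - α' ^ (m + 1)| := by
          rcases le_total α α' with h | h
          · have := pow_diff ha0.le h1.le h m
            rw [abs_sub_comm, abs_of_nonneg (by linarith), abs_sub_comm]
            exact this.trans (le_abs_self _)
          · have := pow_diff ha0.le h1'.le h m
            rw [abs_of_nonneg (by linarith)]
            exact this.trans (le_abs_self _)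
        have e5 : ξ * (|α - α'| * a ^ m) ≤ 2 * (b ^ (m + 1)) ^ κ := (mul_le_mul_of_nonneg_left e4 hξ.le).trans e3
        have e6 : (x ^ (m + 1)) ^ (κ' - 1) = (b ^ (m + 1)) ^ κ / a ^ (m + 1) := by
          rw [han, hbn, ← Real.rpow_mul (by positivity), ← Real.rpow_sub (by positivity)]
          congr 1
          rw [hκ'def]
          ring
        rw [e6, pow_succ a m]
        rw [show 2 * a / ξ * ((b ^ (m + 1)) ^ κ / (a ^ m * a)) = 2 * (b ^ (m + 1)) ^ κ / (ξ * a ^ m) by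
          field_simp]
        rw [le_div_iff₀ (by positivity)]
        calc |α - α'| * (ξ * a ^ m) = ξ * (|α - α'| * a ^ m) := by ring
          _ ≤ _ := e5) (by
        refine Summable.of_nonneg_of_le (fun n => by positivity) (fun n => ?_)
          (summable_terms (β := x) (s := (1 + η) * (s + ε)) (κ := κ') (D := D) (K := |K| * (ξ + 1) ^ (s + ε))
            (C := 2 * a / ξ) hx1 (by positivity) (by
              rw [hκ'def]
              have : ε = (D * (1 - κ) - s) / 2 := hε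
              nlinarith))
        exact mul_le_mul_of_nonneg_right (hcard n) (by positivity))
    have hnhds : {α : ℝ | 1 < α ∧ ∃ᶠ n : ℕ in atTop, ∃ t : ℕ,
      1 ≤ t ∧ |(t : ℝ) - ξ * α ^ n| ≤ (α ^ n) ^ κ ∧ ¬ P t} ∩ Set.Ioo a b ∈
        nhdsWithin x {α : ℝ | 1 < α ∧ ∃ᶠ n : ℕ in atTop, ∃ t : ℕ,
          1 ≤ t ∧ |(t : ℝ) - ξ * α ^ n| ≤ (α ^ n) ^ κ ∧ ¬ P t} :=
      inter_mem_nhdsWithin _ (Ioo_mem_nhds hax hxb)
    have h5 := hx _ hnhds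
    refine absurd (lt_of_lt_of_le h5 (le_trans (dimH_mono ?_) hc)) (lt_irrefl _)
    rintro α ⟨⟨h6, h7⟩, h8, h9⟩
    have h10 := h7.and_eventually (eventually_ge_atTop 1)
    refine h10.mono fun n => ?_
    rintro ⟨⟨t, ht1, ht2, ht3⟩, hn1⟩
    refine ⟨t, (hF n t).2 ⟨⟨ht1, ?_⟩, ht3⟩, h8, h9, hn1, ht2⟩
    apply Nat.le_floor
    have h11 := (abs_le.1 ht2).2
    have hp : (1 : ℝ) ≤ α ^ n := one_le_pow₀ h6.le
    have h12 : (α ^ n) ^ κ ≤ α ^ n := by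
      calc (α ^ n) ^ κ ≤ (α ^ n) ^ (1 : ℝ) := Real.rpow_le_rpow_of_exponent_le hp hκ.le
        _ = α ^ n := Real.rpow_one _
    have h13 : α ^ n ≤ b ^ n := pow_le_pow_left₀ (by linarith) h9.le n
    nlinarith
  refine le_trans (dimH_mono (t := ⋃ ξ ∈ Ξ, {α : ℝ | 1 < α ∧ ∃ᶠ n : ℕ in atTop, ∃ t : ℕ,
      1 ≤ t ∧ |(t : ℝ) - ξ * α ^ n| ≤ (α ^ n) ^ κ ∧ ¬ P t}) ?_) ?_
  · rintro α ⟨hα1, hα⟩
    push Not at hα
    obtain ⟨ξ, hξ, h1⟩ := hα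
    rw [Set.mem_iUnion₂]
    exact ⟨ξ, hξ, hα1, h1⟩
  · rw [dimH_bUnion hΞ]
    exact iSup₂_le fun ξ hξ => key ξ hξ

/-- rational parameters near a real number -/
theorem rat_one (P : ℤ → ℕ → Prop) {s τ : ℝ} (hs : 0 ≤ s) (hτ : 0 < τ)
    (hP : ∀ ε : ℝ, 0 < ε → ∃ K : ℝ, ∀ X : ℕ, 1 ≤ X →
      ({z : ℤ × ℕ | (|z.1| ≤ X ∧ 1 ≤ z.2 ∧ z.2 ≤ X) ∧ ¬ P z.1 z.2}.ncard : ℝ) ≤ K * (X : ℝ) ^ (s + ε)) :
    dimH {x : ℝ | {z : ℤ × ℕ | 1 ≤ z.2 ∧ |x - z.1 / z.2| ≤ (z.2 : ℝ) ^ (-τ) ∧ ¬ P z.1 z.2}.Infinite} ≤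
      ENNReal.ofReal (s / τ) := by
  classical
  have key : ∀ R : ℕ, dimH {x : ℝ | |x| ≤ R ∧
      {z : ℤ × ℕ | 1 ≤ z.2 ∧ |x - z.1 / z.2| ≤ (z.2 : ℝ) ^ (-τ) ∧ ¬ P z.1 z.2}.Infinite} ≤ ENNReal.ofReal (s / τ) := by
    intro R
    have h1 := Pool.Agent.H107.ME.dim_approx (M := ℝ)
      (S := {z : ℤ × ℕ // 1 ≤ z.2 ∧ |z.1| ≤ (R + 1 : ℕ) * z.2 ∧ ¬ P z.1 z.2})
      (fun z => (z.1.1 : ℝ) / z.1.2) (fun z => (z.1.2 : ℝ)) (fun z => by exact_mod_cast z.2.1) (s := s) (σ := τ) hs hτ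
      (fun ε hε => by
        obtain ⟨K, hK⟩ := hP ε hε
        refine ⟨|K| * ((R : ℝ) + 1) ^ (s + ε), fun X hX => ?_⟩
        have hX0 : 0 ≤ X := by linarith
        have hfl : (1 : ℕ) ≤ ⌊X⌋₊ := Nat.le_floor (by exact_mod_cast hX)
        obtain ⟨Y, hY⟩ : ∃ Y : ℕ, Y = (R + 1) * ⌊X⌋₊ := ⟨_, rfl⟩
        have hY1 : 1 ≤ Y := by rw [hY]; nlinarith
        have hfin : {z : ℤ × ℕ | (|z.1| ≤ Y ∧ 1 ≤ z.2 ∧ z.2 ≤ Y) ∧ ¬ P z.1 z.2}.Finite := by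
          refine ((Finset.Icc (-(Y : ℤ)) Y) ×ˢ (Finset.Icc 1 Y)).finite_toSet.subset ?_
          rintro z ⟨⟨h2, h3, h4⟩, -⟩
          rw [Finset.mem_coe, Finset.mem_product, Finset.mem_Icc, Finset.mem_Icc]
          exact ⟨abs_le.1 h2, h3, h4⟩
        have hmaps : ∀ z ∈ {z : {z : ℤ × ℕ // 1 ≤ z.2 ∧ |z.1| ≤ (R + 1 : ℕ) * z.2 ∧ ¬ P z.1 z.2} | (z.1.2 : ℝ) ≤ X},
            (z.1 : ℤ × ℕ) ∈ {z : ℤ × ℕ | (|z.1| ≤ Y ∧ 1 ≤ z.2 ∧ z.2 ≤ Y) ∧ ¬ P z.1 z.2} := by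
          rintro ⟨z, h2, h3, h4⟩ h5
          have h6 : z.2 ≤ ⌊X⌋₊ := Nat.le_floor h5
          refine ⟨⟨?_, h2, ?_⟩, h4⟩
          · refine h3.trans ?_
            rw [hY]
            push_cast
            have : (z.2 : ℤ) ≤ ⌊X⌋₊ := by exact_mod_cast h6
            exact mul_le_mul_of_nonneg_left this (by positivity)
          · rw [hY]
            nlinarith
        have hfin2 : {z : {z : ℤ × ℕ // 1 ≤ z.2 ∧ |z.1| ≤ (R + 1 : ℕ) * z.2 ∧ ¬ P z.1 z.2} | (z.1.2 : ℝ) ≤ X}.Finite :=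
          Set.Finite.of_finite_image (hfin.subset (by rintro _ ⟨z, hz, rfl⟩; exact hmaps z hz))
            (Subtype.val_injective.injOn)
        refine ⟨hfin2, ?_⟩
        have h7 : {z : {z : ℤ × ℕ // 1 ≤ z.2 ∧ |z.1| ≤ (R + 1 : ℕ) * z.2 ∧ ¬ P z.1 z.2} | (z.1.2 : ℝ) ≤ X}.ncard ≤
            {z : ℤ × ℕ | (|z.1| ≤ Y ∧ 1 ≤ z.2 ∧ z.2 ≤ Y) ∧ ¬ P z.1 z.2}.ncard :=
          Set.ncard_le_ncard_of_injOn (fun z => z.1) hmaps (Subtype.val_injective.injOn) hfin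
        have h8 := hK Y hY1
        have h9 : (Y : ℝ) ≤ ((R : ℝ) + 1) * X := by
          rw [hY]
          push_cast
          exact mul_le_mul_of_nonneg_left (Nat.floor_le hX0) (by positivity)
        calc _ ≤ (({z : ℤ × ℕ | (|z.1| ≤ Y ∧ 1 ≤ z.2 ∧ z.2 ≤ Y) ∧ ¬ P z.1 z.2}.ncard : ℕ) : ℝ) := by exact_mod_cast h7
          _ ≤ K * (Y : ℝ) ^ (s + ε) := h8
          _ ≤ |K| * (Y : ℝ) ^ (s + ε) := mul_le_mul_of_nonneg_right (le_abs_self K) (by positivity)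
          _ ≤ |K| * (((R : ℝ) + 1) * X) ^ (s + ε) :=
            mul_le_mul_of_nonneg_left (Real.rpow_le_rpow (Nat.cast_nonneg _) h9 (by linarith)) (abs_nonneg _)
          _ = _ := by rw [Real.mul_rpow (by positivity) hX0]; ring)
    refine le_trans (dimH_mono ?_) h1
    rintro x ⟨hxR, hx⟩
    rw [Set.mem_ofPred_eq]
    intro hfin
    apply hx
    refine (hfin.image (fun z => z.1)).subset ?_
    rintro z ⟨h2, h3, h4⟩
    have hz0 : (0 : ℝ) < z.2 := by exact_mod_cast h2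
    have hz1 : (1 : ℝ) ≤ z.2 := by exact_mod_cast h2
    have h5 : |z.1| ≤ ((R + 1 : ℕ) : ℤ) * z.2 := by
      have h6 : (z.2 : ℝ) ^ (-τ) ≤ 1 := Real.rpow_le_one_of_one_le_of_nonpos hz1 (by linarith)
      have h7 : |(z.1 : ℝ) / z.2| ≤ R + 1 := by
        have : (z.1 : ℝ) / z.2 = x - (x - z.1 / z.2) := by ring
        rw [this]
        calc _ ≤ |x| + |x - z.1 / z.2| := abs_sub _ _
          _ ≤ _ := by linarith
      rw [abs_div, abs_of_pos hz0, div_le_iff₀ hz0] at h7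
      exact_mod_cast h7
    refine ⟨⟨z, h2, h5, h4⟩, ?_, rfl⟩
    rw [Set.mem_ofPred_eq, dist_comm, Real.dist_eq]
    exact h3
  refine le_trans (dimH_mono (t := ⋃ R : ℕ, {x : ℝ | |x| ≤ R ∧
      {z : ℤ × ℕ | 1 ≤ z.2 ∧ |x - z.1 / z.2| ≤ (z.2 : ℝ) ^ (-τ) ∧ ¬ P z.1 z.2}.Infinite}) ?_) ?_
  · intro x hx
    rw [Set.mem_iUnion]
    obtain ⟨R, hR⟩ := exists_nat_ge |x|
    exact ⟨R, hR, hx⟩
  · rw [dimH_iUnion]
    exact iSup_le key

end Pool.Agent.N84.MD
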