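import Mathlib

set_option autoImplicit false

/-! Borel-Cantelli for random integers of bounded size, and the first digits of a real number (helper84). -/

namespace Pool.Agent.N84.MD

open Filter Set MeasureTheory
open scoped ENNReal

/-- the measure of a set given by the value of a random integer -/
theorem meas_le {Ω : Type*} [MeasurableSpace Ω] (ν : Measure Ω) [IsFiniteMeasure ν] (R : ℕ) (X : Ω → ℕ)
    (hX : ∀ ω, X ω < R) (g : ℕ → Prop) [DecidablePred g] :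
    ν {ω | ¬ g (X ω)} ≤ ENNReal.ofReal (∑ v ∈ Finset.range R, (if g v then 0 else (ν {ω | X ω = v}).toReal)) := by
  classical
  have h1 : {ω | ¬ g (X ω)} ⊆ ⋃ v ∈ (Finset.range R).filter (fun v => ¬ g v), {ω | X ω = v} := by
    intro ω hω
    simp only [Set.mem_iUnion]
    exact ⟨X ω, Finset.mem_filter.2 ⟨Finset.mem_range.2 (hX ω), hω⟩, rfl⟩
  refine (measure_mono h1).trans ((measure_biUnion_finset_le _ _).trans ?_)
  rw [ENNReal.ofReal_sum_of_nonneg (fun v _ => by split_ifs <;> positivity), Finset.sum_filter]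
  refine Finset.sum_le_sum fun v _ => ?_
  by_cases hv : g v
  · rw [if_neg (by simpa using hv)]
    exact zero_le
  · rw [if_pos hv, if_neg hv, ENNReal.ofReal_toReal (measure_ne_top _ _)]

/-- Borel-Cantelli -/
theorem bc {Ω : Type*} [MeasurableSpace Ω] (ν : Measure Ω) [IsFiniteMeasure ν] (bad : ℕ → Set Ω)
    (h : ∃ k₀ : ℕ, ∀ k : ℕ, k₀ ≤ k → ν (bad k) ≤ ENNReal.ofReal (1 / (k : ℝ) ^ 2)) :
    ∀ᵐ ω ∂ν, ∀ᶠ k : ℕ in atTop, ω ∉ bad k := by
  obtain ⟨k₀, hk⟩ := h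
  have hs : (∑' k : ℕ, ν (if k₀ ≤ k then bad k else ∅)) ≠ ⊤ := by
    have h1 : ∀ k : ℕ, ν (if k₀ ≤ k then bad k else ∅) ≤ ENNReal.ofReal (1 / (k : ℝ) ^ 2) := by
      intro k
      by_cases h2 : k₀ ≤ k
      · rw [if_pos h2]
        exact hk k h2
      · rw [if_neg h2, measure_empty]
        exact zero_le
    refine ne_top_of_le_ne_top ?_ (ENNReal.tsum_le_tsum h1)
    rw [← ENNReal.ofReal_tsum_of_nonneg (fun k => by positivity) (Real.summable_one_div_nat_pow.2 (by norm_num))]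
    exact ENNReal.ofReal_ne_top
  filter_upwards [ae_eventually_notMem hs] with ω hω
  filter_upwards [hω, eventually_ge_atTop k₀] with k h1 h2
  rw [if_pos h2] at h1
  exact h1

/-- Borel-Cantelli for random integers -/
theorem bc_nat {Ω : Type*} [MeasurableSpace Ω] (ν : Measure Ω) [IsFiniteMeasure ν] (R : ℕ → ℕ) (X : ℕ → Ω → ℕ)
    (hX : ∀ k ω, X k ω < R k) (g : ℕ → ℕ → Prop) [∀ k, DecidablePred (g k)]
    (h : ∃ k₀ : ℕ, ∀ k : ℕ, k₀ ≤ k →
      ∑ v ∈ Finset.range (R k), (if g k v then 0 else (ν {ω | X k ω = v}).toReal) ≤ 1 / (k : ℝ) ^ 2) :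
    ∀ᵐ ω ∂ν, ∀ᶠ k : ℕ in atTop, g k (X k ω) := by
  obtain ⟨k₀, hk⟩ := h
  have := bc ν (fun k => {ω | ¬ g k (X k ω)}) ⟨k₀, fun k h1 => (meas_le ν (R k) (X k) (hX k) (g k)).trans
    (ENNReal.ofReal_le_ofReal (hk k h1))⟩
  filter_upwards [this] with ω hω
  filter_upwards [hω] with k h1
  by_contra h2
  exact h1 h2

/-- the law of the integer part of `R ξ` for `ξ` uniform in `[0, 1)` -/
theorem unif (R : ℕ) (hR : 0 < R) (v : ℕ) (hv : v < R) :
    (volume.restrict (Ico (0 : ℝ) 1)) {ξ : ℝ | ⌊(R : ℝ) * ξ⌋₊ % R = v} = ENNReal.ofReal (1 / R) := by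
  have hR0 : (0 : ℝ) < R := by exact_mod_cast hR
  rw [Measure.restrict_apply' measurableSet_Ico]
  have h1 : {ξ : ℝ | ⌊(R : ℝ) * ξ⌋₊ % R = v} ∩ Ico (0 : ℝ) 1 = Ico ((v : ℝ) / R) (((v : ℝ) + 1) / R) := by
    ext ξ
    rw [Set.mem_inter_iff, Set.mem_ofPred_eq, Set.mem_Ico, Set.mem_Ico, div_le_iff₀ hR0, lt_div_iff₀ hR0]
    constructor
    · rintro ⟨h2, h3, h4⟩
      have h5 : (R : ℝ) * ξ < R := by nlinarith
      have h6 : ⌊(R : ℝ) * ξ⌋₊ < R := (Nat.floor_lt (by positivity)).2 h5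
      rw [Nat.mod_eq_of_lt h6] at h2
      have h7 := Nat.floor_le (show 0 ≤ (R : ℝ) * ξ by positivity)
      have h8 := Nat.lt_floor_add_one ((R : ℝ) * ξ)
      rw [h2] at h7 h8
      exact ⟨by linarith, by linarith⟩
    · rintro ⟨h2, h3⟩
      have hv0 : (0 : ℝ) ≤ v := Nat.cast_nonneg v
      have hv1 : (v : ℝ) + 1 ≤ R := by exact_mod_cast hv
      have h4 : 0 ≤ ξ := by
        by_contra hcon
        push Not at hcon
        nlinarith
      have h5 : ⌊(R : ℝ) * ξ⌋₊ = v := by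
        rw [Nat.floor_eq_iff (by positivity)]
        exact ⟨by linarith, by linarith⟩
      refine ⟨by rw [h5, Nat.mod_eq_of_lt hv], h4, ?_⟩
      by_contra hcon
      push Not at hcon
      nlinarith
  rw [h1, Real.volume_Ico]
  congr 1
  field_simp
  ring

end Pool.Agent.N84.MD
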