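import Mathlib
import Pool.Agent.N84.MD.B

set_option autoImplicit false

/-! Metric results for exceptional sets with a power saving (helper84): exceptional sets which depend on the scale. -/

namespace Pool.Agent.N84.MD

open Filter Set MeasureTheory
open scoped ENNReal

/-- The points `y` with a bad object `e` of scale `T` such that `φ e` is within `T ^ (-τ)` of `y`, for arbitrarily large
`T`, form a set of dimension at most `s / τ`, if there are at most `C T ^ s` bad objects of scale `T`. -/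
theorem scales {X : Type*} [Fintype X] {S : Type*} (φ : S → X → ℝ) (Bad E : ℝ → Set S) {s τ : ℝ} (hs : 0 ≤ s) (hτ : 0 < τ)
    (hBad : ∃ T₀ : ℝ, ∀ T T' : ℝ, T₀ ≤ T → T ≤ T' → T' ≤ 2 * T → Bad T ⊆ E T')
    (hE : ∃ C : ℝ, ∀ T : ℝ, 1 ≤ T → (E T).Finite ∧ ((E T).ncard : ℝ) ≤ C * T ^ s) :
    dimH {y : X → ℝ | ¬ ∀ᶠ T : ℝ in atTop, ∀ e ∈ Bad T, ¬ ∀ i, |y i - φ e i| ≤ T ^ (-τ)} ≤ ENNReal.ofReal (s / τ) := by
  classical
  refine dim_le_of_forall (div_nonneg hs hτ.le) fun D hD => ?_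
  have hD0 : 0 < D := lt_of_le_of_lt (div_nonneg hs hτ.le) hD
  have hsD : s < D * τ := by rwa [div_lt_iff₀ hτ] at hD
  obtain ⟨T₀, hT₀⟩ := hBad
  obtain ⟨C, hC⟩ := hE
  have h2n : ∀ n : ℕ, (1 : ℝ) ≤ 2 ^ n := fun n => one_le_pow₀ (by norm_num)
  have hc := core (X := X → ℝ) (fun (n : ℕ) (e : S) => {y : X → ℝ | ∀ i, |y i - φ e i| ≤ ((2 : ℝ) ^ n / 2) ^ (-τ)}) D hD0
    (fun n => (hC (2 ^ n) (h2n n)).1.toFinset) (fun n => 2 * ((2 : ℝ) ^ n / 2) ^ (-τ)) (fun n => by positivity)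
    (fun n e _ => by
      refine Metric.ediam_le fun y hy y' hy' => ?_
      rw [edist_pi_le_iff]
      intro i
      rw [edist_dist, Real.dist_eq]
      refine ENNReal.ofReal_le_ofReal ?_
      have h1 := hy i
      have h2 := hy' i
      calc |y i - y' i| = |(y i - φ e i) - (y' i - φ e i)| := by congr 1; ring
        _ ≤ |y i - φ e i| + |y' i - φ e i| := abs_sub _ _
        _ ≤ _ := by linarith)
    (by
      have hsum := (summable_terms (β := 2) (s := s) (κ := 1 - τ) (D := D) (K := |C|) (C := 2 * (2 : ℝ) ^ τ)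
        (by norm_num) (by positivity) (by linarith))
      refine Summable.of_nonneg_of_le (fun n => by positivity) (fun n => ?_) hsum
      have e1 : 2 * ((2 : ℝ) ^ n / 2) ^ (-τ) = 2 * (2 : ℝ) ^ τ * (2 ^ n) ^ (1 - τ - 1) := by
        rw [Real.div_rpow (by positivity) (by norm_num), Real.rpow_neg (by norm_num : (0 : ℝ) ≤ 2), div_inv_eq_mul]
        rw [show 1 - τ - 1 = -τ by ring]
        ring
      rw [e1]
      apply mul_le_mul_of_nonneg_right _ (by positivity)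
      have h3 := (hC (2 ^ n) (h2n n)).2
      rw [Set.ncard_eq_toFinset_card _ (hC (2 ^ n) (h2n n)).1] at h3
      exact h3.trans (mul_le_mul_of_nonneg_right (le_abs_self C) (by positivity)))
  refine le_trans (dimH_mono ?_) hc
  intro y hy
  have hy1 : ∃ᶠ T : ℝ in atTop, ∃ e ∈ Bad T, ∀ i, |y i - φ e i| ≤ T ^ (-τ) := by
    rw [Set.mem_ofPred_eq, Filter.not_eventually] at hy
    refine hy.mono fun T hT => ?_
    push Not at hT
    exact hT
  rw [Set.mem_ofPred_eq, Filter.frequently_atTop]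
  intro N
  rw [Filter.frequently_atTop] at hy1
  obtain ⟨T, hTN, e, he, hye⟩ := hy1 (max (max T₀ 1) (2 ^ N))
  have hT1 : 1 ≤ T := (le_max_right T₀ 1).trans ((le_max_left _ _).trans hTN)
  have hTT : T₀ ≤ T := (le_max_left T₀ 1).trans ((le_max_left _ _).trans hTN)
  have hTpow : (2 : ℝ) ^ N ≤ T := (le_max_right _ _).trans hTN
  obtain ⟨n, hn1, hn2⟩ : ∃ n : ℕ, T ≤ 2 ^ n ∧ (2 : ℝ) ^ n ≤ 2 * T := by
    obtain ⟨m, hm1, hm2⟩ := exists_nat_pow_near hT1 (by norm_num : (1 : ℝ) < 2)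
    exact ⟨m + 1, hm2.le, by rw [pow_succ]; linarith⟩
  refine ⟨n, ?_, e, ?_, ?_⟩
  · have h4 : (2 : ℝ) ^ N ≤ 2 ^ n := hTpow.trans hn1
    exact (pow_le_pow_iff_right₀ (by norm_num : (1 : ℝ) < 2)).1 h4
  · rw [Set.Finite.mem_toFinset]
    exact hT₀ T (2 ^ n) hTT hn1 hn2 he
  · intro i
    refine (hye i).trans ?_
    apply Real.rpow_le_rpow_of_nonpos (by positivity) (by linarith) (by linarith)

end Pool.Agent.N84.MD
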