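import Mathlib
import Pool.Agent.N84.MD.C

set_option autoImplicit false

/-! Metric results for exceptional sets with a power saving (helper84): sets of dimension less than `n` in `ℝⁿ` are null
sets; comparison of the scales. -/

namespace Pool.Agent.N84.MD

open Filter Set MeasureTheory
open scoped ENNReal

/-- a set of dimension less than `n` in `ℝⁿ` is a null set -/
theorem null_of_dim {n : ℕ} {E : Set (Fin n → ℝ)} {s : ℝ} (h : dimH E ≤ ENNReal.ofReal s) (hs0 : 0 ≤ s) (hs : s < n) :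
    volume E = 0 := by
  have hv : (volume : Measure (Fin n → ℝ)) = Measure.hausdorffMeasure ((n : NNReal) : ℝ) := by
    have := (hausdorffMeasure_pi_real (ι := Fin n))
    rw [Fintype.card_fin] at this
    rw [← this]
    norm_num
  rw [hv]
  apply measure_zero_of_dimH_lt (Measure.AbsolutelyContinuous.rfl)
  refine lt_of_le_of_lt h ?_
  rw [ENNReal.ofReal_lt_coe_iff hs0]
  simpa using hs

/-- a set of dimension less than `1` in `ℝ` is a null set -/
theorem null_of_dim_one {E : Set ℝ} {s : ℝ} (h : dimH E ≤ ENNReal.ofReal s) (hs0 : 0 ≤ s) (hs : s < 1) :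
    volume E = 0 := by
  rw [← hausdorffMeasure_real]
  have h1 : dimH E < ((1 : NNReal) : ℝ≥0∞) := by
    refine lt_of_le_of_lt h ?_
    rw [ENNReal.ofReal_lt_coe_iff hs0]
    simpa using hs
  have := measure_zero_of_dimH_lt (μ := Measure.hausdorffMeasure ((1 : NNReal) : ℝ)) (Measure.AbsolutelyContinuous.rfl) h1
  simpa using this

/-- comparison of the bounds at the scales `T ≤ T' ≤ 2 T` -/
theorem scale_value {B : ℝ} : ∃ T₀ : ℝ, 1 ≤ T₀ ∧ ∀ T T' : ℝ, T₀ ≤ T → T ≤ T' → T' ≤ 2 * T →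
    T ^ (-(max B 0 + 1)) ≤ T' ^ (-B) := by
  obtain ⟨B1, hB1⟩ : ∃ B1 : ℝ, B1 = max B 0 := ⟨_, rfl⟩
  have hB10 : 0 ≤ B1 := by rw [hB1]; exact le_max_right _ _
  refine ⟨max 1 (2 ^ B1), le_max_left _ _, fun T T' hT h1 h2 => ?_⟩
  have hT1 : 1 ≤ T := (le_max_left _ _).trans hT
  have hT2 : (2 : ℝ) ^ B1 ≤ T := (le_max_right _ _).trans hT
  have hT0 : 0 < T := by linarith
  have hT'1 : 1 ≤ T' := hT1.trans h1
  rw [← hB1]
  calc T ^ (-(B1 + 1)) = T ^ (-B1) * T⁻¹ := by
        rw [neg_add, Real.rpow_add hT0, Real.rpow_neg_one]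
    _ ≤ T ^ (-B1) * (2 ^ B1)⁻¹ :=
        mul_le_mul_of_nonneg_left (inv_anti₀ (by positivity) hT2) (by positivity)
    _ = (2 * T) ^ (-B1) := by
        rw [Real.mul_rpow (by norm_num) hT0.le, Real.rpow_neg (by norm_num : (0 : ℝ) ≤ 2), mul_comm]
    _ ≤ T' ^ (-B1) := Real.rpow_le_rpow_of_nonpos (by linarith) h2 (by linarith)
    _ ≤ T' ^ (-B) := Real.rpow_le_rpow_of_exponent_le hT'1 (by rw [hB1]; linarith [le_max_left B 0])

end Pool.Agent.N84.MD
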