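import Pool.Agent.N84.MD.D

set_option autoImplicit false

/-! Metric results, exceptional sets which depend on an integer `N` in a thin set of integers (helper84). -/

namespace Pool.Agent.N84.MD

open Filter Set MeasureTheory
open scoped ENNReal

/-- Hausdorff-Cantelli, a finite set `E N` for every `N` in a set `M` of integers such that the sum of the `N ^ (-σ)`,
`N ∈ M`, converges -/
theorem levels {X : Type*} [Fintype X] {S : Type*} (φ : ℕ → S → X → ℝ) (E : ℕ → Set S) {s σ τ : ℝ} (hs : 0 ≤ s)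
    (hσ : 0 < σ) (hτ : 0 < τ) (hE : ∃ C : ℝ, ∀ N : ℕ, 1 ≤ N → (E N).Finite ∧ ((E N).ncard : ℝ) ≤ C * (N : ℝ) ^ s)
    (M : Set ℕ) (hM : Summable fun N : M => ((N : ℕ) : ℝ) ^ (-σ)) :
    dimH {y : X → ℝ | ¬ ∀ᶠ N : ℕ in atTop, N ∈ M → ∀ e ∈ E N, ¬ ∀ i, |y i - φ N e i| ≤ (N : ℝ) ^ (-τ)} ≤
      ENNReal.ofReal ((s + σ) / τ) := by
  classical
  have hD0 : 0 < (s + σ) / τ := div_pos (by linarith) hτ
  obtain ⟨C, hC⟩ := hE
  have hfin : ∀ N : ℕ, 1 ≤ N → (E N).Finite := fun N hN => (hC N hN).1
  let F : ℕ → Finset S := fun N => if h : N ∈ M ∧ 1 ≤ N then (hfin N h.2).toFinset else ∅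
  have hF : ∀ N, N ∈ M → 1 ≤ N → ∀ e, e ∈ F N ↔ e ∈ E N := by
    intro N h1 h2 e
    have : F N = (hfin N h2).toFinset := by
      simp only [F]
      rw [dif_pos ⟨h1, h2⟩]
    rw [this, Set.Finite.mem_toFinset]
  have hc := core (X := X → ℝ) (fun (N : ℕ) (e : S) => {y : X → ℝ | ∀ i, |y i - φ N e i| ≤ (N : ℝ) ^ (-τ)})
    ((s + σ) / τ) hD0 F (fun N => 2 * (N : ℝ) ^ (-τ)) (fun N => by positivity)
    (fun N e _ => by
      refine Metric.ediam_le fun y hy y' hy' => ?_
      rw [edist_dist]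
      refine ENNReal.ofReal_le_ofReal ?_
      rw [dist_pi_le_iff (by positivity)]
      intro i
      have h1 := hy i
      have h2 := hy' i
      rw [Real.dist_eq]
      calc |y i - y' i| = |(y i - φ N e i) - (y' i - φ N e i)| := by congr 1; ring
        _ ≤ |y i - φ N e i| + |y' i - φ N e i| := abs_sub _ _
        _ ≤ 2 * (N : ℝ) ^ (-τ) := by linarith)
    (by
      have h0 : Summable (M.indicator fun N : ℕ => (N : ℝ) ^ (-σ)) := by
        rw [← summable_subtype_iff_indicator]
        exact hM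
      refine Summable.of_nonneg_of_le (fun N => by positivity) (fun N => ?_)
        (h0.mul_left (|C| * 2 ^ ((s + σ) / τ)))
      by_cases h : N ∈ M ∧ 1 ≤ N
      · have hN : (0 : ℝ) < N := by exact_mod_cast h.2
        have hFN : F N = (hfin N h.2).toFinset := by
          simp only [F]
          rw [dif_pos h]
        have hcard : ((F N).card : ℝ) ≤ |C| * (N : ℝ) ^ s := by
          rw [hFN, ← Set.ncard_eq_toFinset_card _ (hfin N h.2)]
          refine (hC N h.2).2.trans ?_
          exact mul_le_mul_of_nonneg_right (le_abs_self C) (by positivity)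
        rw [Set.indicator_of_mem h.1]
        have hpow : (2 * (N : ℝ) ^ (-τ)) ^ ((s + σ) / τ) = 2 ^ ((s + σ) / τ) * (N : ℝ) ^ (-(s + σ)) := by
          rw [Real.mul_rpow (by norm_num) (by positivity), ← Real.rpow_mul hN.le]
          congr 2
          field_simp
        rw [hpow]
        calc ((F N).card : ℝ) * (2 ^ ((s + σ) / τ) * (N : ℝ) ^ (-(s + σ)))
            ≤ (|C| * (N : ℝ) ^ s) * (2 ^ ((s + σ) / τ) * (N : ℝ) ^ (-(s + σ))) :=
              mul_le_mul_of_nonneg_right hcard (by positivity)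
          _ = |C| * 2 ^ ((s + σ) / τ) * ((N : ℝ) ^ s * (N : ℝ) ^ (-(s + σ))) := by ring
          _ = |C| * 2 ^ ((s + σ) / τ) * (N : ℝ) ^ (-σ) := by
              rw [← Real.rpow_add hN]
              congr 2
              ring
      · have hFN : F N = ∅ := by
          simp only [F]
          rw [dif_neg h]
        rw [hFN, Finset.card_empty, Nat.cast_zero, zero_mul]
        refine mul_nonneg (by positivity) (Set.indicator_nonneg (fun N _ => by positivity) N))
  refine le_trans (dimH_mono ?_) hc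
  intro y hy
  rw [Set.mem_ofPred_eq, Filter.not_eventually] at hy
  refine (hy.and_eventually (eventually_ge_atTop 1)).mono ?_
  rintro N ⟨h1, h2⟩
  push Not at h1
  obtain ⟨hNM, e, he, h3⟩ := h1
  exact ⟨e, (hF N hNM h2 e).2 he, h3⟩

end Pool.Agent.N84.MD
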