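import Pool.Agent.N84.MD.E

set_option autoImplicit false

/-! Metric results, bad tuples of positive integers in boxes `[N / κ, κ N] ^ k` (helper84). -/

namespace Pool.Agent.N84.MD

open Filter Set MeasureTheory
open scoped ENNReal

/-- the tuples of integers near the dilates `N ξ` of a vector `ξ` with positive coordinates -/
theorem boxes {k : ℕ} (Bad : ℕ → Set (Fin k → ℕ)) {s σ τ : ℝ} (hs : 0 ≤ s) (hσ : 0 < σ) (hτ : 0 < τ)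
    (hBad : ∀ κ : ℕ, 1 ≤ κ → ∃ (C : ℝ) (N₀ : ℕ), ∀ N : ℕ, N₀ ≤ N →
      ({t : Fin k → ℕ | (∀ j, N ≤ κ * t j ∧ t j ≤ κ * N) ∧ t ∈ Bad N}.ncard : ℝ) ≤ C * (N : ℝ) ^ s)
    (M : Set ℕ) (hM : Summable fun N : M => ((N : ℕ) : ℝ) ^ (-σ)) :
    dimH {ξ : Fin k → ℝ | (∀ j, 0 < ξ j) ∧ ¬ ∀ᶠ N : ℕ in atTop, N ∈ M → ∀ t : Fin k → ℕ,
      (∀ j, |ξ j - t j / N| ≤ (N : ℝ) ^ (-τ)) → t ∉ Bad N} ≤ ENNReal.ofReal ((s + σ) / τ) := by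
  classical
  have hsub : {ξ : Fin k → ℝ | (∀ j, 0 < ξ j) ∧ ¬ ∀ᶠ N : ℕ in atTop, N ∈ M → ∀ t : Fin k → ℕ,
      (∀ j, |ξ j - t j / N| ≤ (N : ℝ) ^ (-τ)) → t ∉ Bad N} ⊆
      ⋃ κ : ℕ, {ξ : Fin k → ℝ | (∀ j, 1 / ((κ : ℝ) + 1) ≤ ξ j ∧ ξ j ≤ (κ : ℝ) + 1) ∧
        ¬ ∀ᶠ N : ℕ in atTop, N ∈ M → ∀ t : Fin k → ℕ, (∀ j, |ξ j - t j / N| ≤ (N : ℝ) ^ (-τ)) → t ∉ Bad N} := by
    rintro ξ ⟨h1, h2⟩
    rw [Set.mem_iUnion]
    obtain ⟨κ, hκ⟩ := exists_nat_ge (∑ j, (ξ j + 1 / ξ j))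
    have h3 : ∀ j, ξ j + 1 / ξ j ≤ κ := fun j =>
      (Finset.single_le_sum (fun i _ => add_nonneg (h1 i).le (one_div_nonneg.2 (h1 i).le)) (Finset.mem_univ j)).trans hκ
    refine ⟨κ, fun j => ⟨?_, ?_⟩, h2⟩
    · have h4 := h1 j
      have h5 : 1 / ξ j ≤ (κ : ℝ) + 1 := by linarith [h3 j]
      rw [div_le_iff₀ h4] at h5
      rw [div_le_iff₀ (by positivity)]
      linarith
    · have : 0 < 1 / ξ j := one_div_pos.2 (h1 j)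
      linarith [h3 j]
  refine le_trans (dimH_mono hsub) ?_
  rw [dimH_iUnion]
  refine iSup_le fun κ => ?_
  obtain ⟨C, N₀, hC⟩ := hBad (2 * (κ + 1)) (by omega)
  -- large `N`
  have hlim : Tendsto (fun N : ℕ => ((N : ℝ)) ^ (-τ)) atTop (nhds 0) :=
    (tendsto_rpow_neg_atTop hτ).comp tendsto_natCast_atTop_atTop
  have hε : (0 : ℝ) < 1 / (2 * ((κ : ℝ) + 1)) := by positivity
  obtain ⟨N₁, hN₁⟩ := eventually_atTop.1 (hlim.eventually (gt_mem_nhds hε))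
  let E : ℕ → Set (Fin k → ℕ) := fun N => if N₀ ≤ N ∧ 1 ≤ N then
    {t : Fin k → ℕ | (∀ j, N ≤ 2 * (κ + 1) * t j ∧ t j ≤ 2 * (κ + 1) * N) ∧ t ∈ Bad N} else ∅
  have hfin : ∀ N : ℕ, {t : Fin k → ℕ | (∀ j, N ≤ 2 * (κ + 1) * t j ∧ t j ≤ 2 * (κ + 1) * N) ∧ t ∈ Bad N}.Finite := by
    intro N
    refine (Set.Finite.pi (fun _ : Fin k => Set.finite_Iic (2 * (κ + 1) * N))).subset ?_
    intro t ht j _
    exact (ht.1 j).2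
  have hl := levels (X := Fin k) (S := Fin k → ℕ) (fun N t j => (t j : ℝ) / N) E hs hσ hτ
    ⟨|C|, fun N hN => by
      by_cases h : N₀ ≤ N ∧ 1 ≤ N
      · have hE : E N = {t : Fin k → ℕ | (∀ j, N ≤ 2 * (κ + 1) * t j ∧ t j ≤ 2 * (κ + 1) * N) ∧ t ∈ Bad N} := by
          simp only [E]
          rw [if_pos h]
        rw [hE]
        refine ⟨hfin N, (hC N h.1).trans ?_⟩
        exact mul_le_mul_of_nonneg_right (le_abs_self C) (by positivity)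
      · have hE : E N = ∅ := by
          simp only [E]
          rw [if_neg h]
        rw [hE]
        refine ⟨Set.finite_empty, ?_⟩
        rw [Set.ncard_empty, Nat.cast_zero]
        positivity⟩ M hM
  refine le_trans (dimH_mono ?_) hl
  rintro ξ ⟨h1, h2⟩ h3
  apply h2
  filter_upwards [h3, eventually_ge_atTop N₀, eventually_ge_atTop N₁, eventually_ge_atTop 1] with N h4 h5 h6 h7 hNM t ht hbad
  have hN0 : (0 : ℝ) < N := by exact_mod_cast h7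
  have hκ0 : (0 : ℝ) < (κ : ℝ) + 1 := by positivity
  refine h4 hNM t ?_ ht
  have hE : E N = {t : Fin k → ℕ | (∀ j, N ≤ 2 * (κ + 1) * t j ∧ t j ≤ 2 * (κ + 1) * N) ∧ t ∈ Bad N} := by
    simp only [E]
    rw [if_pos ⟨h5, h7⟩]
  rw [hE]
  refine ⟨fun j => ?_, hbad⟩
  have h8 := abs_le.1 ((ht j).trans (hN₁ N h6).le)
  have h9 := h1 j
  have h10 : 1 / (2 * ((κ : ℝ) + 1)) ≤ (t j : ℝ) / N := by
    have : 1 / (2 * ((κ : ℝ) + 1)) = 1 / ((κ : ℝ) + 1) / 2 := by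
      field_simp
    have h11 := h9.1
    rw [this] at h8 ⊢
    linarith [h8.2]
  have h12 : (t j : ℝ) / N ≤ 2 * ((κ : ℝ) + 1) := by
    have : 1 / (2 * ((κ : ℝ) + 1)) ≤ (κ : ℝ) + 1 := by
      rw [div_le_iff₀ (by positivity)]
      nlinarith [sq_nonneg (κ : ℝ), (Nat.cast_nonneg κ : (0 : ℝ) ≤ κ)]
    linarith [h8.1, h9.2]
  rw [div_le_div_iff₀ (by positivity) hN0] at h10
  rw [div_le_iff₀ hN0] at h12
  constructor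
  · have : (N : ℝ) ≤ 2 * ((κ : ℝ) + 1) * t j := by linarith
    exact_mod_cast this
  · exact_mod_cast h12

/-- the same up to sets of measure zero -/
theorem boxes_ae {k : ℕ} (Bad : ℕ → Set (Fin k → ℕ)) {s σ τ : ℝ} (hs : 0 ≤ s) (hσ : 0 < σ) (hτ : 0 < τ)
    (hBad : ∀ κ : ℕ, 1 ≤ κ → ∃ (C : ℝ) (N₀ : ℕ), ∀ N : ℕ, N₀ ≤ N →
      ({t : Fin k → ℕ | (∀ j, N ≤ κ * t j ∧ t j ≤ κ * N) ∧ t ∈ Bad N}.ncard : ℝ) ≤ C * (N : ℝ) ^ s)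
    (M : Set ℕ) (hM : Summable fun N : M => ((N : ℕ) : ℝ) ^ (-σ)) (hlt : s + σ < τ * k) :
    ∀ᵐ ξ : Fin k → ℝ, (∀ j, 0 < ξ j) → ∀ᶠ N : ℕ in atTop, N ∈ M → ∀ t : Fin k → ℕ,
      (∀ j, |ξ j - t j / N| ≤ (N : ℝ) ^ (-τ)) → t ∉ Bad N := by
  rw [ae_iff]
  refine null_of_dim (n := k) (s := (s + σ) / τ) ?_ (by positivity) (by rw [div_lt_iff₀ hτ]; linarith)
  refine le_trans (dimH_mono ?_) (boxes Bad hs hσ hτ hBad M hM)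
  intro ξ hξ
  rw [Set.mem_ofPred_eq] at hξ ⊢
  push Not at hξ ⊢
  exact hξ

end Pool.Agent.N84.MD
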