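import Pool.Agent.N84.MD.F

set_option autoImplicit false

/-! Metric results, rational numbers of bounded denominator (helper84). -/

namespace Pool.Agent.N84.MD

open Filter Set MeasureTheory
open scoped ENNReal

/-- `scales` with a loss of `ε` in the exponent -/
theorem scales_eps {X : Type*} [Fintype X] {S : Type*} (φ : S → X → ℝ) (Bad E : ℝ → Set S) {s τ : ℝ} (hs : 0 ≤ s)
    (hτ : 0 < τ) (hBad : ∃ T₀ : ℝ, ∀ T T' : ℝ, T₀ ≤ T → T ≤ T' → T' ≤ 2 * T → Bad T ⊆ E T')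
    (hE : ∀ ε : ℝ, 0 < ε → ∃ C T₀ : ℝ, ∀ T : ℝ, T₀ ≤ T → (E T).Finite ∧ ((E T).ncard : ℝ) ≤ C * T ^ (s + ε)) :
    dimH {y : X → ℝ | ¬ ∀ᶠ T : ℝ in atTop, ∀ e ∈ Bad T, ¬ ∀ i, |y i - φ e i| ≤ T ^ (-τ)} ≤ ENNReal.ofReal (s / τ) := by
  classical
  refine dim_le_of_forall (div_nonneg hs hτ.le) fun D hD => ?_
  have hD1 : s < D * τ := by rwa [div_lt_iff₀ hτ] at hD
  obtain ⟨C, T₁, hC⟩ := hE (D * τ - s) (by linarith)
  obtain ⟨T₀, hT₀⟩ := hBad
  have h := scales (X := X) (S := S) φ Bad (fun T => if T₁ ≤ T then E T else ∅) (s := D * τ) (by linarith) hτ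
    ⟨max T₀ T₁, fun T T' h1 h2 h3 => by
      have h4 : T₁ ≤ T' := (le_max_right _ _).trans (h1.trans h2)
      simp only [if_pos h4]
      exact hT₀ T T' ((le_max_left _ _).trans h1) h2 h3⟩
    ⟨|C|, fun T hT => by
      by_cases h4 : T₁ ≤ T
      · simp only [if_pos h4]
        refine ⟨(hC T h4).1, (hC T h4).2.trans ?_⟩
        have h5 : s + (D * τ - s) = D * τ := by ring
        rw [h5]
        exact mul_le_mul_of_nonneg_right (le_abs_self C) (by positivity)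
      · simp only [if_neg h4]
        refine ⟨Set.finite_empty, ?_⟩
        rw [Set.ncard_empty, Nat.cast_zero]
        positivity⟩
  have h6 : D * τ / τ = D := by field_simp
  rw [h6] at h
  exact h

/-- the rational numbers of an interval with denominators at most `T` -/
theorem rats (a b : ℝ) : ∃ K : ℝ, 0 ≤ K ∧ ∀ T : ℝ, 1 ≤ T → ∃ X : Finset ℚ,
    (∀ q : ℚ, q ∈ X ↔ a ≤ (q : ℝ) ∧ (q : ℝ) ≤ b ∧ (q.den : ℝ) ≤ T) ∧ (X.card : ℝ) ≤ K * T ^ (2 : ℕ) := by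
  classical
  obtain ⟨R, hR⟩ : ∃ R : ℝ, R = max |a| |b| := ⟨_, rfl⟩
  have hR0 : 0 ≤ R := by rw [hR]; exact (abs_nonneg a).trans (le_max_left _ _)
  refine ⟨2 * R + 1, by linarith, fun T hT => ?_⟩
  have hT0 : 0 < T := by linarith
  let Z : Finset (ℤ × ℕ) := (Finset.Icc (-⌊R * T⌋) ⌊R * T⌋) ×ˢ (Finset.Icc 1 ⌊T⌋₊)
  let f : ℤ × ℕ → ℚ := fun z => (z.1 : ℚ) / z.2
  have hmem : ∀ q : ℚ, a ≤ (q : ℝ) → (q : ℝ) ≤ b → (q.den : ℝ) ≤ T → q ∈ Z.image f := by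
    intro q h1 h2 h3
    rw [Finset.mem_image]
    refine ⟨(q.num, q.den), ?_, ?_⟩
    · rw [Finset.mem_product, Finset.mem_Icc, Finset.mem_Icc]
      have hden : (0 : ℝ) < q.den := by exact_mod_cast q.den_pos
      have hq : |(q : ℝ)| ≤ R := by
        rw [hR]
        rw [abs_le]
        constructor
        · have := neg_abs_le a
          linarith [le_max_left |a| |b|]
        · exact h2.trans ((le_abs_self b).trans (le_max_right _ _))
      have hnum : |(q.num : ℝ)| ≤ R * T := by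
        have h4 : (q : ℝ) * q.den = q.num := by exact_mod_cast Rat.mul_den_eq_num q
        rw [← h4, abs_mul, abs_of_pos hden]
        exact mul_le_mul hq h3 hden.le hR0
      have h5 := abs_le.1 hnum
      refine ⟨⟨?_, ?_⟩, q.den_pos, Nat.le_floor h3⟩
      · have : -(q.num : ℝ) ≤ R * T := by linarith [h5.1]
        have h6 : -q.num ≤ ⌊R * T⌋ := Int.le_floor.2 (by push_cast; exact this)
        show -⌊R * T⌋ ≤ q.num
        linarith
      · exact Int.le_floor.2 h5.2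
    · exact Rat.num_div_den q
  refine ⟨(Z.image f).filter fun q : ℚ => a ≤ (q : ℝ) ∧ (q : ℝ) ≤ b ∧ (q.den : ℝ) ≤ T, fun q => ?_, ?_⟩
  · rw [Finset.mem_filter]
    exact ⟨fun h => h.2, fun h => ⟨hmem q h.1 h.2.1 h.2.2, h⟩⟩
  · have h1 : (((Z.image f).filter fun q : ℚ => a ≤ (q : ℝ) ∧ (q : ℝ) ≤ b ∧ (q.den : ℝ) ≤ T).card : ℝ) ≤ (Z.card : ℝ) := by
      exact_mod_cast (Finset.card_filter_le _ _).trans Finset.card_image_le
    refine h1.trans ?_
    have h2 : (Z.card : ℝ) = (2 * (⌊R * T⌋ : ℝ) + 1) * (⌊T⌋₊ : ℝ) := by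
      have h3 : 0 ≤ ⌊R * T⌋ := Int.floor_nonneg.2 (by positivity)
      have h4 : (Finset.Icc (-⌊R * T⌋) ⌊R * T⌋).card = (2 * ⌊R * T⌋ + 1).toNat := by
        rw [Int.card_Icc]
        congr 1
        ring
      rw [Finset.card_product, h4, Nat.card_Icc]
      have h5 : (((2 * ⌊R * T⌋ + 1).toNat : ℕ) : ℝ) = 2 * (⌊R * T⌋ : ℝ) + 1 := by
        have : (((2 * ⌊R * T⌋ + 1).toNat : ℕ) : ℤ) = 2 * ⌊R * T⌋ + 1 := Int.toNat_of_nonneg (by omega)
        exact_mod_cast this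
      push_cast [h5]
      rfl
    rw [h2]
    have h6 : (⌊R * T⌋ : ℝ) ≤ R * T := Int.floor_le _
    have h7 : (⌊T⌋₊ : ℝ) ≤ T := Nat.floor_le hT0.le
    have h8 : (0 : ℝ) ≤ (⌊R * T⌋ : ℝ) := by exact_mod_cast Int.floor_nonneg.2 (by positivity : 0 ≤ R * T)
    calc (2 * (⌊R * T⌋ : ℝ) + 1) * (⌊T⌋₊ : ℝ) ≤ (2 * (R * T) + T) * T := by
          apply mul_le_mul _ h7 (Nat.cast_nonneg _) (by positivity)
          linarith
      _ = (2 * R + 1) * T ^ (2 : ℕ) := by ring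

end Pool.Agent.N84.MD
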