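import Pool.Agent.N469.GG.Deg
import Pool.Agent.N625.PT.Q

set_option autoImplicit false

/-! The degrees in the Goldbach graphs of the vertices near a random integer given by digits, at all scales (helper84). -/

namespace Pool.Agent.N84.MD.GB

open Finset
open Pool.Agent.N625.PT (TCls)
open Pool.Agent.W93.TD (HLs)
open Pool.Agent.W93.PG (WinP)
open Pool.Agent.N469.GG (Nb nb_pair)

/-- the number of digits for the scale `N` -/
lemma lev (b D Cc J₂ : ℕ) (hb : 2 ≤ b) : ∃ k₀ : ℕ, ∀ k : ℕ, k₀ ≤ k → ∀ N : ℕ, b ^ k ≤ Cc * N → N ≤ k ^ J₂ * b ^ k →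
    ∃ e : ℕ, N + (D + 1) * b ^ k ≤ b ^ (k + e) ∧ b ^ (k + e) ≤ b * (1 + (D + 1) * Cc) * N ∧
      (e : ℝ) ≤ ((2 * (J₂ + 1) : ℕ) : ℝ) * Real.log k ∧ D ≤ b ^ e := by
  refine ⟨b * (D + 2) + 3, fun k hk N h1 h2 => ?_⟩
  have hbk : 0 < b ^ k := Nat.pow_pos (by omega)
  have hkbk : k < b ^ k := Nat.lt_pow_self (by omega)
  obtain ⟨K, hK⟩ : ∃ K, K = Nat.clog b (N + (D + 1) * b ^ k) := ⟨_, rfl⟩
  have hM1 : 1 < N + (D + 1) * b ^ k := by nlinarith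
  have hup : N + (D + 1) * b ^ k ≤ b ^ K := by rw [hK]; exact Nat.le_pow_clog (by omega) _
  have hlow : b ^ (K - 1) < N + (D + 1) * b ^ k := by
    rw [hK]
    exact Nat.pow_pred_clog_lt_self (by omega) hM1
  have hkK : k ≤ K := by
    have h3 : b ^ k ≤ b ^ K := by nlinarith
    exact (Nat.pow_le_pow_iff_right (by omega)).1 h3
  have hlow' : b ^ K ≤ b * (N + (D + 1) * b ^ k) := by
    calc b ^ K = b * b ^ (K - 1) := by
          rw [← pow_succ']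
          congr 1
          omega
      _ ≤ _ := Nat.mul_le_mul_left _ hlow.le
  refine ⟨K - k, ?_, ?_, ?_, ?_⟩
  · rw [Nat.add_sub_cancel' hkK]
    exact hup
  · rw [Nat.add_sub_cancel' hkK]
    refine hlow'.trans ?_
    rw [mul_assoc]
    refine Nat.mul_le_mul_left _ ?_
    have := Nat.mul_le_mul_left (D + 1) h1
    calc N + (D + 1) * b ^ k ≤ N + (D + 1) * (Cc * N) := by omega
      _ = (1 + (D + 1) * Cc) * N := by ring
  · have h3 : b ^ (K - k) ≤ k ^ (J₂ + 1) := by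
      have h4 : b ^ (K - k) * b ^ k ≤ k ^ (J₂ + 1) * b ^ k := by
        rw [← pow_add, Nat.sub_add_cancel hkK]
        refine hlow'.trans ?_
        have hk1 : 1 ≤ k ^ J₂ := Nat.one_le_pow _ _ (by omega)
        have h5 : (D + 1) * b ^ k ≤ (D + 1) * (k ^ J₂ * b ^ k) := Nat.mul_le_mul_left _ (Nat.le_mul_of_pos_left _ hk1)
        have h6 : N + (D + 1) * b ^ k ≤ (D + 2) * (k ^ J₂ * b ^ k) := by
          calc N + (D + 1) * b ^ k ≤ k ^ J₂ * b ^ k + (D + 1) * (k ^ J₂ * b ^ k) := by omega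
            _ = (D + 2) * (k ^ J₂ * b ^ k) := by ring
        calc b * (N + (D + 1) * b ^ k) ≤ b * ((D + 2) * (k ^ J₂ * b ^ k)) := Nat.mul_le_mul_left _ h6
          _ = (b * (D + 2)) * (k ^ J₂ * b ^ k) := by ring
          _ ≤ k * (k ^ J₂ * b ^ k) := Nat.mul_le_mul_right _ (by omega)
          _ = k ^ (J₂ + 1) * b ^ k := by ring
      exact Nat.le_of_mul_le_mul_right h4 hbk
    have hbr : (2 : ℝ) ≤ b := by exact_mod_cast hb
    have hkr : (3 : ℝ) ≤ k := by exact_mod_cast (by omega : 3 ≤ k)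
    have hlk : 0 ≤ Real.log k := Real.log_nonneg (by linarith)
    have g1 : (b : ℝ) ^ (K - k) ≤ (k : ℝ) ^ (J₂ + 1) := by exact_mod_cast h3
    have g2 := Real.log_le_log (by positivity) g1
    rw [Real.log_pow, Real.log_pow] at g2
    have g3 : (1 : ℝ) / 2 ≤ Real.log b := by
      have := Real.log_two_gt_d9
      have := Real.log_le_log (by norm_num) hbr
      linarith
    have g4 : (0 : ℝ) ≤ ((K - k : ℕ) : ℝ) := Nat.cast_nonneg _
    push_cast at g2 ⊢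
    nlinarith
  · have h3 : D * b ^ k ≤ b ^ (K - k) * b ^ k := by
      rw [← pow_add, Nat.sub_add_cancel hkK]
      nlinarith
    exact Nat.le_of_mul_le_mul_right h3 hbk

open Classical in
/-- prime pairs whose difference is near a random integer, at one scale -/
theorem pair_prob {b : ℕ} {κ : ℤ} {C : ℕ → (ℕ → ℝ) → Prop} (hC : TCls b κ C) (B Cc J₂ W U : ℕ) :
    ∃ k₀ : ℕ, ∀ k : ℕ, k₀ ≤ k → ∀ p, C k p → ∀ c : ℤ, |c| ≤ B * (b : ℤ) ^ k → ∀ N : ℕ, b ^ k ≤ Cc * N → N ≤ k ^ J₂ * b ^ k →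
    ∑ v ∈ range (b ^ k), (if ∃ s : ℤ, |s| ≤ (k : ℤ) ^ W ∧ (0 ≤ c + s + κ * v ∧
      ¬ HLs (1 / 2) (U + W + 1) N (fun _ : Fin 1 => (c + s + κ * v).toNat)) then p v else 0) ≤ 1 / (k : ℝ) ^ U := by
  have hb := hC.two
  obtain ⟨F, hF, hlaw⟩ := hC.law
  obtain ⟨U', hU'⟩ : ∃ U', U' = U + W + 1 := ⟨_, rfl⟩
  obtain ⟨D, hD⟩ : ∃ D, D = F + B + κ.natAbs + 1 := ⟨_, rfl⟩
  obtain ⟨k2, h2⟩ := lev b D Cc J₂ hb
  obtain ⟨c₁, m₁, h1⟩ := hlaw (2 * (J₂ + 1)) (2 * (2 * U' + 5 + 1 + 2) + 6)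
  obtain ⟨K₀, h3⟩ := Pool.Agent.Y885.tl_tuples 1 b 15 c₁ (b * (1 + (D + 1) * Cc)) U' le_rfl hb (by norm_num) (1 / 2) (by norm_num)
  obtain ⟨k4, h4⟩ := Pool.Agent.N625.PT.pow_le_pow_digits b hb W
  refine ⟨k2 + m₁ + K₀ + k4 + 3, fun k hk p hp c hc N hN1 hN2 => ?_⟩
  rw [← hU']
  obtain ⟨e, he1, he2, he3, he4⟩ := h2 k (by omega) N hN1 hN2
  refine Pool.Agent.N625.PT.union_off W U k (by omega) (b ^ k) p (hC.nonneg k p hp)
    (fun s v => 0 ≤ c + s + κ * v ∧ ¬ HLs (1 / 2) U' N (fun _ : Fin 1 => (c + s + κ * v).toNat)) ?_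
  intro s hs
  have hlogF : Nat.log b (F * 1) ≤ e := by
    calc Nat.log b (F * 1) ≤ Nat.log b (b ^ e) := Nat.log_mono_right (by omega)
      _ = e := Nat.log_pow (by omega) _
  have t1 := h1 k (by omega) e he3 1 le_rfl hlogF p hp (c + s)
  have key := h3 (k + e) (by omega) ℕ inferInstance (fun _ => range (b ^ k)) (fun _ => p)
    (fun _ v => ((1 : ℕ) : ℤ) * (c + s + κ * v)) (fun _ => t1) (fun _ => hC.sum k p hp) N he2 (by omega) (by
      intro _ v hv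
      rw [mem_range] at hv
      have v0 : (0 : ℤ) ≤ (v : ℤ) := Int.natCast_nonneg _
      have v1 : ((v : ℕ) : ℤ) ≤ (b : ℤ) ^ k := by exact_mod_cast hv.le
      have hbk : (0 : ℤ) < (b : ℤ) ^ k := by
        have : 0 < b ^ k := Nat.pow_pos (by omega)
        exact_mod_cast this
      have hkW' : ((k : ℤ)) ^ W ≤ (b : ℤ) ^ k := by exact_mod_cast h4 k (by omega)
      have q1 := abs_add_le (c + s) (κ * (v : ℤ))
      have q2 := abs_add_le c s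
      have q3 : |κ * (v : ℤ)| ≤ (κ.natAbs : ℤ) * (b : ℤ) ^ k := by
        rw [abs_mul, Int.abs_eq_natAbs κ, abs_of_nonneg v0]
        exact mul_le_mul_of_nonneg_left v1 (Int.natCast_nonneg _)
      have q4 : |c + s + κ * (v : ℤ)| ≤ (D : ℤ) * (b : ℤ) ^ k := by
        rw [hD]
        push_cast at q3 ⊢
        nlinarith [mul_nonneg (Int.natCast_nonneg F) hbk.le]
      have q5 : (N : ℤ) + ((D : ℤ) + 1) * (b : ℤ) ^ k ≤ (b : ℤ) ^ (k + e) := by exact_mod_cast he1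
      have q6 : (0 : ℤ) ≤ (N : ℤ) := Int.natCast_nonneg _
      rw [abs_le] at q4
      push_cast
      constructor
      · linarith [q4.1]
      · linarith [q4.2])
    (fun ω => 0 ≤ c + s + κ * (ω 0 : ℤ) ∧ ¬ HLs (1 / 2) U' N (fun _ : Fin 1 => (c + s + κ * (ω 0 : ℤ)).toNat))
    (fun _ => Classical.propDecidable _) (by
      intro ω _ hω
      have e0 : ∀ i : Fin 1, ω i = ω 0 := fun i => by rw [Subsingleton.elim i 0]
      have e1 : ∀ i : Fin 1, ((1 : ℕ) : ℤ) * (c + s + κ * (ω i : ℤ)) = c + s + κ * (ω 0 : ℤ) := fun i => by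
        rw [e0 i]
        push_cast
        ring
      refine ⟨fun i => ?_, fun h => hω.2 ?_⟩
      · rw [e1 i]
        exact hω.1
      · simp only [e1] at h
        exact h)
  have e6 := Pool.Agent.N469.TL.pi_one (range (b ^ k)) (fun v : ℕ => if 0 ≤ c + s + κ * v ∧
      ¬ HLs (1 / 2) U' N (fun _ : Fin 1 => (c + s + κ * v).toNat) then p v else 0)
  refine le_trans (le_of_eq ?_) (key.trans ?_)
  · refine Eq.trans (sum_congr rfl fun v _ => ?_) (e6.symm.trans (sum_congr rfl fun ω _ => ?_))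
    · split_ifs <;> rfl
    · rw [Fin.prod_univ_one]
      split_ifs <;> rfl
  have hk0 : (0 : ℝ) < k := by exact_mod_cast (by omega : 0 < k)
  rw [← hU']
  apply one_div_le_one_div_of_le (by positivity)
  apply pow_le_pow_left₀ hk0.le
  exact_mod_cast (by omega : k ≤ k + e)

open Classical in
/-- prime pairs whose difference is near a random integer, at all the scales `2 ^ j` -/
theorem scales_prob {b : ℕ} {κ : ℤ} {C : ℕ → (ℕ → ℝ) → Prop} (hC : TCls b κ C) (B Cc J₂ W U : ℕ) :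
    ∃ k₀ : ℕ, ∀ k : ℕ, k₀ ≤ k → ∀ p, C k p → ∀ c : ℤ, |c| ≤ B * (b : ℤ) ^ k →
    ∑ v ∈ range (b ^ k), (if ∃ j : ℕ, b ^ k ≤ Cc * 2 ^ j ∧ 2 ^ j ≤ k ^ J₂ * b ^ k ∧ ∃ s : ℤ, |s| ≤ (k : ℤ) ^ W ∧
      (0 ≤ c + s + κ * v ∧ ¬ HLs (1 / 2) (U + 3 + W + 1) (2 ^ j) (fun _ : Fin 1 => (c + s + κ * v).toNat))
      then p v else 0) ≤ 1 / (k : ℝ) ^ U := by
  have hb := hC.two
  obtain ⟨k1, h1⟩ := pair_prob hC B Cc J₂ W (U + 3)
  obtain ⟨k4, h4⟩ := Pool.Agent.N625.PT.pow_le_pow_digits b hb J₂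
  refine ⟨k1 + k4 + 2 * b + 3, fun k hk p hp c hc => ?_⟩
  have hp0 := hC.nonneg k p hp
  have hj : ∀ j : ℕ, 2 ^ j ≤ k ^ J₂ * b ^ k → j < k ^ 2 + 1 := by
    intro j hj
    have g1 : k ^ J₂ * b ^ k ≤ b ^ k * b ^ k := Nat.mul_le_mul_right _ (h4 k (by omega))
    have g2 : b ^ k * b ^ k ≤ 2 ^ (k ^ 2) := by
      calc b ^ k * b ^ k = b ^ (2 * k) := by rw [← pow_add]; congr 1; ring
        _ ≤ (2 ^ b) ^ (2 * k) := Nat.pow_le_pow_left Nat.lt_two_pow_self.le _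
        _ = 2 ^ (b * (2 * k)) := by rw [← pow_mul]
        _ ≤ 2 ^ (k ^ 2) := Nat.pow_le_pow_right (by norm_num) (by nlinarith)
    have g3 : 2 ^ j ≤ 2 ^ (k ^ 2) := (hj.trans g1).trans g2
    have g4 := (Nat.pow_le_pow_iff_right (by norm_num : 1 < 2)).1 g3
    omega
  have hmain : ∑ v ∈ range (b ^ k), (if ∃ j : ℕ, b ^ k ≤ Cc * 2 ^ j ∧ 2 ^ j ≤ k ^ J₂ * b ^ k ∧ ∃ s : ℤ, |s| ≤ (k : ℤ) ^ W ∧
      (0 ≤ c + s + κ * v ∧ ¬ HLs (1 / 2) (U + 3 + W + 1) (2 ^ j) (fun _ : Fin 1 => (c + s + κ * v).toNat))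
      then p v else 0) ≤ ∑ j ∈ range (k ^ 2 + 1), (if b ^ k ≤ Cc * 2 ^ j ∧ 2 ^ j ≤ k ^ J₂ * b ^ k then
        ∑ v ∈ range (b ^ k), (if ∃ s : ℤ, |s| ≤ (k : ℤ) ^ W ∧
      (0 ≤ c + s + κ * v ∧ ¬ HLs (1 / 2) (U + 3 + W + 1) (2 ^ j) (fun _ : Fin 1 => (c + s + κ * v).toNat))
      then p v else 0) else 0) := by
    have hsw : ∀ j : ℕ, (if b ^ k ≤ Cc * 2 ^ j ∧ 2 ^ j ≤ k ^ J₂ * b ^ k then
        ∑ v ∈ range (b ^ k), (if ∃ s : ℤ, |s| ≤ (k : ℤ) ^ W ∧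
          (0 ≤ c + s + κ * v ∧ ¬ HLs (1 / 2) (U + 3 + W + 1) (2 ^ j) (fun _ : Fin 1 => (c + s + κ * v).toNat))
          then p v else 0) else 0) = ∑ v ∈ range (b ^ k), (if (b ^ k ≤ Cc * 2 ^ j ∧ 2 ^ j ≤ k ^ J₂ * b ^ k) ∧
            ∃ s : ℤ, |s| ≤ (k : ℤ) ^ W ∧
          (0 ≤ c + s + κ * v ∧ ¬ HLs (1 / 2) (U + 3 + W + 1) (2 ^ j) (fun _ : Fin 1 => (c + s + κ * v).toNat))
          then p v else 0) := by
      intro j
      by_cases h : b ^ k ≤ Cc * 2 ^ j ∧ 2 ^ j ≤ k ^ J₂ * b ^ k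
      · rw [if_pos h]
        refine sum_congr rfl fun v _ => ?_
        simp only [h, true_and]
      · rw [if_neg h]
        simp only [h, false_and, if_false, sum_const_zero]
    simp only [hsw]
    rw [sum_comm]
    refine sum_le_sum fun v _ => ?_
    have hnn : ∀ j ∈ range (k ^ 2 + 1), 0 ≤ (if (b ^ k ≤ Cc * 2 ^ j ∧ 2 ^ j ≤ k ^ J₂ * b ^ k) ∧
            ∃ s : ℤ, |s| ≤ (k : ℤ) ^ W ∧
          (0 ≤ c + s + κ * v ∧ ¬ HLs (1 / 2) (U + 3 + W + 1) (2 ^ j) (fun _ : Fin 1 => (c + s + κ * v).toNat))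
          then p v else 0) := by
      intro j _
      split_ifs
      · exact hp0 v
      · exact le_rfl
    by_cases hv : ∃ j : ℕ, b ^ k ≤ Cc * 2 ^ j ∧ 2 ^ j ≤ k ^ J₂ * b ^ k ∧ ∃ s : ℤ, |s| ≤ (k : ℤ) ^ W ∧
      (0 ≤ c + s + κ * v ∧ ¬ HLs (1 / 2) (U + 3 + W + 1) (2 ^ j) (fun _ : Fin 1 => (c + s + κ * v).toNat))
    · rw [if_pos hv]
      obtain ⟨j, q1, q2, q3⟩ := hv
      refine le_trans ?_ (single_le_sum hnn (mem_range.2 (hj j q2)))
      rw [if_pos ⟨⟨q1, q2⟩, q3⟩]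
    · rw [if_neg hv]
      exact sum_nonneg hnn
  refine hmain.trans ?_
  have hone : ∀ j ∈ range (k ^ 2 + 1), (if b ^ k ≤ Cc * 2 ^ j ∧ 2 ^ j ≤ k ^ J₂ * b ^ k then
        ∑ v ∈ range (b ^ k), (if ∃ s : ℤ, |s| ≤ (k : ℤ) ^ W ∧
      (0 ≤ c + s + κ * v ∧ ¬ HLs (1 / 2) (U + 3 + W + 1) (2 ^ j) (fun _ : Fin 1 => (c + s + κ * v).toNat))
      then p v else 0) else 0) ≤ 1 / (k : ℝ) ^ (U + 3) := by
    intro j _
    by_cases h : b ^ k ≤ Cc * 2 ^ j ∧ 2 ^ j ≤ k ^ J₂ * b ^ k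
    · rw [if_pos h]
      exact h1 k (by omega) p hp c hc (2 ^ j) h.1 h.2
    · rw [if_neg h]
      positivity
  refine (sum_le_sum hone).trans ?_
  rw [sum_const, card_range, nsmul_eq_mul]
  have hk3 : (3 : ℝ) ≤ k := by exact_mod_cast (by omega : 3 ≤ k)
  have hk0 : (0 : ℝ) < k := by linarith
  rw [mul_one_div, div_le_div_iff₀ (by positivity) (by positivity), one_mul, pow_add]
  push_cast
  have h5 : (k : ℝ) ^ 2 + 1 ≤ (k : ℝ) ^ 3 := by nlinarith [sq_nonneg (k : ℝ)]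
  nlinarith [pow_pos hk0 U, mul_le_mul_of_nonneg_left h5 (pow_pos hk0 U).le]

/-- many neighbours -/
lemma deg2 : ∃ c₁ : ℝ, 0 < c₁ ∧ ∃ n₁ : ℕ, ∀ n : ℕ, n₁ ≤ n →
    (c₁ * (n / Real.log n ^ 2) ≤ ((Nb n 0).card : ℝ)) ∧
    (∀ U a N : ℕ, Even a → 2 ≤ a → a ≤ n → 2 * N ≤ n → n < 4 * N → HLs (1 / 2) U N (fun _ : Fin 1 => a) →
      c₁ * (n / Real.log n ^ 2) ≤ ((Nb n a).card : ℝ)) ∧
    (∀ a : ℕ, Even a → n < a → a ≤ 2 * n → WinP (1 / 2) 1 a → c₁ * (n / Real.log n ^ 2) ≤ ((Nb n a).card : ℝ)) := by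
  obtain ⟨c₀, hc₀, n₀, h0⟩ := Pool.Agent.N469.GG.deg_low
  obtain ⟨c, hc, hlow⟩ := Pool.Agent.N469.TL.hls_low
  refine ⟨min c₀ (c / 4), lt_min hc₀ (by positivity), n₀ + 16, fun n hn => ?_⟩
  obtain ⟨d0, -, d2⟩ := h0 n (by omega)
  have hn16 : (16 : ℝ) ≤ n := by exact_mod_cast (by omega : 16 ≤ n)
  have hL0 : 0 < Real.log (n : ℝ) := Real.log_pos (by linarith)
  have hpos : 0 < (n : ℝ) / Real.log n ^ 2 := by positivity
  have hm0 : min c₀ (c / 4) * ((n : ℝ) / Real.log n ^ 2) ≤ c₀ * (n / Real.log n ^ 2) :=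
    mul_le_mul_of_nonneg_right (min_le_left _ _) hpos.le
  have hm1 : min c₀ (c / 4) * ((n : ℝ) / Real.log n ^ 2) ≤ c / 4 * (n / Real.log n ^ 2) :=
    mul_le_mul_of_nonneg_right (min_le_right _ _) hpos.le
  refine ⟨hm0.trans d0, fun U a N ha h2a han hN1 hN2 hls => ?_, fun a ha h1 h2 hw => hm0.trans (d2 a ha h1 h2 hw)⟩
  have e1 := nb_pair n a ha h2a han
  have e2 := hlow U N a (by omega) (by obtain ⟨k, hk⟩ := ha; exact ⟨k, by omega⟩) hls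
  have e3 : ((Icc 1 N).filter (fun p : ℕ => p.Prime ∧ (p + a).Prime)).card ≤
      ((Icc 1 (n / 2)).filter (fun p : ℕ => p.Prime ∧ (p + a).Prime)).card := by
    apply card_le_card
    apply filter_subset_filter
    exact Icc_subset_Icc_right (by omega)
  have e4 : (((Icc 1 N).filter (fun p : ℕ => p.Prime ∧ (p + a).Prime)).card : ℝ) ≤ ((Nb n a).card : ℝ) := by
    exact_mod_cast e3.trans e1
  refine hm1.trans (le_trans ?_ (e2.trans e4))
  have hN : (n : ℝ) / 4 ≤ N := by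
    have : (n : ℝ) < 4 * N := by exact_mod_cast hN2
    linarith
  have hNn : (N : ℝ) ≤ n := by exact_mod_cast (by omega : N ≤ n)
  have hLN : Real.log (N : ℝ) ≤ Real.log n := Real.log_le_log (by linarith) hNn
  have hLN0 : 0 < Real.log (N : ℝ) := Real.log_pos (by linarith)
  calc c / 4 * ((n : ℝ) / Real.log n ^ 2) = c * ((n / 4) / Real.log n ^ 2) := by ring
    _ ≤ c * ((N : ℝ) / Real.log N ^ 2) := by gcongr

open Classical in
/-- all the vertices near a random integer have many neighbours, in all the graphs of comparable or somewhat larger sizes -/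
theorem core {b : ℕ} {κ : ℤ} {C : ℕ → (ℕ → ℝ) → Prop} (hC : TCls b κ C) (B Cc J₂ W U : ℕ) (c₁ : ℝ) (n₁ : ℕ)
    (hdeg : ∀ n : ℕ, n₁ ≤ n →
      (c₁ * (n / Real.log n ^ 2) ≤ ((Nb n 0).card : ℝ)) ∧
      (∀ U a N : ℕ, Even a → 2 ≤ a → a ≤ n → 2 * N ≤ n → n < 4 * N → HLs (1 / 2) U N (fun _ : Fin 1 => a) →
        c₁ * (n / Real.log n ^ 2) ≤ ((Nb n a).card : ℝ)) ∧
      (∀ a : ℕ, Even a → n < a → a ≤ 2 * n → WinP (1 / 2) 1 a → c₁ * (n / Real.log n ^ 2) ≤ ((Nb n a).card : ℝ))) :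
    ∃ k₀ : ℕ, ∀ k : ℕ, k₀ ≤ k → ∀ p, C k p → ∀ c : ℤ, |c| ≤ B * (b : ℤ) ^ k →
    ∑ v ∈ range (b ^ k), (if ∀ n : ℕ, b ^ k ≤ Cc * n → n ≤ k ^ J₂ * b ^ k → ∀ a : ℕ,
      |(a : ℤ) - (c + κ * v)| ≤ (k : ℤ) ^ W → Even a → a ≤ 2 * n → c₁ * (n / Real.log n ^ 2) ≤ ((Nb n a).card : ℝ)
      then 0 else p v) ≤ 1 / (k : ℝ) ^ U := by
  have hb := hC.two
  obtain ⟨k1, h1⟩ := scales_prob hC B (4 * Cc) J₂ W (U + 1)
  obtain ⟨k2, h2⟩ := Pool.Agent.N625.PT.t_windows hC B 0 W 1 (U + 1) 0 (1 / 2) (by norm_num) (fun m => WinP (1 / 2) 1 m)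
    (fun m _ _ h => h)
  refine ⟨k1 + k2 + Cc * (n₁ + 4) + 3, fun k hk p hp c hc => ?_⟩
  have hp0 := hC.nonneg k p hp
  have t1 := h1 k (by omega) p hp c hc
  have t2 := h2 k (by omega) p hp c hc (fun v : ℕ => ¬ ∃ s : ℤ, |s| ≤ (k : ℤ) ^ W ∧ 0 < c + s + κ * v ∧
    2 ∣ c + s + κ * v ∧ ¬ WinP (1 / 2) 1 (c + s + κ * v).toNat) (by
      intro v hv
      rw [not_not] at hv
      obtain ⟨s, hs, q1, q2, q3⟩ := hv
      refine ⟨1, le_rfl, by simp, s, hs, ?_⟩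
      simp only [Nat.cast_one, one_mul]
      exact ⟨q1, q2, q3⟩)
  have hsum : ∑ v ∈ range (b ^ k), (if ∀ n : ℕ, b ^ k ≤ Cc * n → n ≤ k ^ J₂ * b ^ k → ∀ a : ℕ,
      |(a : ℤ) - (c + κ * v)| ≤ (k : ℤ) ^ W → Even a → a ≤ 2 * n → c₁ * (n / Real.log n ^ 2) ≤ ((Nb n a).card : ℝ)
      then 0 else p v) ≤ 1 / (k : ℝ) ^ (U + 1) + 1 / (k : ℝ) ^ (U + 1) := by
    refine le_trans ?_ (add_le_add t1 t2)
    rw [← sum_add_distrib]
    refine sum_le_sum fun v _ => ?_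
    by_cases hv : ∀ n : ℕ, b ^ k ≤ Cc * n → n ≤ k ^ J₂ * b ^ k → ∀ a : ℕ,
      |(a : ℤ) - (c + κ * v)| ≤ (k : ℤ) ^ W → Even a → a ≤ 2 * n → c₁ * (n / Real.log n ^ 2) ≤ ((Nb n a).card : ℝ)
    · rw [if_pos hv]
      apply add_nonneg
      · split_ifs
        all_goals first | exact hp0 v | exact le_rfl
      · split_ifs
        all_goals first | exact hp0 v | exact le_rfl
    · rw [if_neg hv]
      push Not at hv
      obtain ⟨n, hn1, hn2, a, ha1, ha2, ha3, ha4⟩ := hv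
      have hkbk : k < b ^ k := Nat.lt_pow_self (by omega)
      have hnn : n₁ + 4 ≤ n := by
        by_contra hcon
        push Not at hcon
        have : Cc * n ≤ Cc * (n₁ + 4) := Nat.mul_le_mul_left _ (by omega)
        omega
      obtain ⟨d0, d1, d2⟩ := hdeg n (by omega)
      have hr : c + ((a : ℤ) - (c + κ * (v : ℤ))) + κ * (v : ℤ) = a := by ring
      have hcase : (∃ j : ℕ, b ^ k ≤ 4 * Cc * 2 ^ j ∧ 2 ^ j ≤ k ^ J₂ * b ^ k ∧ ∃ s : ℤ, |s| ≤ (k : ℤ) ^ W ∧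
          (0 ≤ c + s + κ * v ∧ ¬ HLs (1 / 2) (U + 1 + 3 + W + 1) (2 ^ j) (fun _ : Fin 1 => (c + s + κ * v).toNat))) ∨
          (∃ s : ℤ, |s| ≤ (k : ℤ) ^ W ∧ 0 < c + s + κ * v ∧ 2 ∣ c + s + κ * v ∧ ¬ WinP (1 / 2) 1 (c + s + κ * v).toNat) := by
        rcases Nat.eq_zero_or_pos a with h0 | h0
        · exfalso
          rw [h0] at ha4
          linarith
        obtain ⟨m, hm⟩ := ha2
        rcases le_or_gt a n with h5 | h5
        · left
          have hj1 : 2 ^ Nat.log 2 (n / 2) ≤ n / 2 := Nat.pow_log_le_self 2 (by omega)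
          have hj2 : n / 2 < 2 ^ (Nat.log 2 (n / 2) + 1) := Nat.lt_pow_succ_log_self (by norm_num) _
          rw [pow_succ] at hj2
          have hj3 : n < 4 * 2 ^ Nat.log 2 (n / 2) := by omega
          refine ⟨Nat.log 2 (n / 2), ?_, by omega, (a : ℤ) - (c + κ * (v : ℤ)), ha1, ?_, ?_⟩
          · calc b ^ k ≤ Cc * n := hn1
              _ ≤ Cc * (4 * 2 ^ Nat.log 2 (n / 2)) := Nat.mul_le_mul_left _ hj3.le
              _ = 4 * Cc * 2 ^ Nat.log 2 (n / 2) := by ring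
          · rw [hr]
            exact_mod_cast h0.le
          · rw [hr, Int.toNat_natCast]
            intro hls
            have := d1 _ a (2 ^ Nat.log 2 (n / 2)) ⟨m, hm⟩ (by omega) h5 (by omega) hj3 hls
            linarith
        · right
          refine ⟨(a : ℤ) - (c + κ * (v : ℤ)), ha1, ?_, ?_, ?_⟩
          · rw [hr]
            exact_mod_cast h0
          · rw [hr]
            omega
          · rw [hr, Int.toNat_natCast]
            intro hw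
            have := d2 a ⟨m, hm⟩ h5 ha3 hw
            linarith
      rcases hcase with h | h
      · rw [if_pos h]
        refine le_add_of_nonneg_right ?_
        split_ifs
        all_goals first | exact hp0 v | exact le_rfl
      · rw [if_neg (not_not.2 h)]
        refine le_add_of_nonneg_left ?_
        split_ifs
        all_goals first | exact hp0 v | exact le_rfl
  refine hsum.trans ?_
  have hk3 : (3 : ℝ) ≤ k := by exact_mod_cast (by omega : 3 ≤ k)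
  have hk0 : (0 : ℝ) < k := by linarith
  rw [← add_div, div_le_div_iff₀ (by positivity) (by positivity), pow_succ]
  have : 0 < (k : ℝ) ^ U := by positivity
  nlinarith

end Pool.Agent.N84.MD.GB
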