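import Pool.Agent.N84.MD.BC
import Pool.Agent.N84.MD.GB
import Pool.Agent.N625.PT.I

set_option autoImplicit false

/-! The prime tuples conjecture near independent random integers given by digits, at all scales at once (helper84). -/

namespace Pool.Agent.N84.MD.TT

open Finset Filter MeasureTheory
open Pool.Agent.N625.PT (TCls union_gen tlaw_mono_c)
open Pool.Agent.W93.TD (HLs)
open Pool.Agent.Y885 (HLs_mono)
open Pool.Agent.H373R2.T7 (singZ Admissible)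
open Pool.Agent.H560R3.GB (primeTuples)

/-- the formula of Hardy and Littlewood up to a relative error `ε` -/
def Law {s : ℕ} (ε : ℝ) (N : ℕ) (a : Fin s → ℕ) : Prop :=
  ∃ S : ℝ, Tendsto (fun z => singZ (fun i => (a i : ℤ)) z) atTop (nhds S) ∧
    (Admissible (fun i => (a i : ℤ)) → 0 < S ∧
      |(primeTuples a N : ℝ) - S * (N / Real.log N ^ (s + 1))| ≤ ε * (S * (N / Real.log N ^ (s + 1))))

lemma primeTuples_mono {s : ℕ} (a : Fin s → ℕ) {N M : ℕ} (h : N ≤ M) : primeTuples a N ≤ primeTuples a M := by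
  unfold primeTuples
  apply card_le_card
  apply filter_subset_filter
  exact Icc_subset_Icc_right h

/-- a larger `ε` is weaker -/
lemma law_mono {s : ℕ} {ε ε' : ℝ} {N : ℕ} {a : Fin s → ℕ} (h : Law ε N a) (hε : ε ≤ ε') : Law ε' N a := by
  obtain ⟨S, h1, h2⟩ := h
  refine ⟨S, h1, fun hadm => ?_⟩
  obtain ⟨h3, h4⟩ := h2 hadm
  refine ⟨h3, h4.trans ?_⟩
  have h5 : 0 ≤ Real.log (N : ℝ) := Real.log_natCast_nonneg N
  have h6 : 0 ≤ S * (N / Real.log N ^ (s + 1)) := by positivity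
  exact mul_le_mul_of_nonneg_right hε h6

/-- between two scales -/
lemma interp {s : ℕ} (ε : ℝ) (hε : 0 < ε) (hε1 : ε ≤ 1) (N N₁ N₂ : ℕ) (h2 : 2 ≤ N₁) (h1 : N₁ ≤ N) (h3 : N ≤ N₂)
    (hr : (N₂ : ℝ) ≤ (1 + ε / 8) * N₁) (U : ℕ) (a : Fin s → ℕ) (g1 : HLs (ε / 8) U N₁ a) (g2 : HLs (ε / 8) U N₂ a) :
    Law ε N a := by
  obtain ⟨S, t1, -, u1⟩ := g1
  obtain ⟨S', t2, -, u2⟩ := g2
  have hS : S' = S := tendsto_nhds_unique t2 t1
  rw [hS] at u2
  refine ⟨S, t1, fun hadm => ?_⟩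
  obtain ⟨hS0, w1⟩ := u1 hadm
  obtain ⟨-, w2⟩ := u2 hadm
  refine ⟨hS0, ?_⟩
  have m1 : (primeTuples a N₁ : ℝ) ≤ primeTuples a N := by exact_mod_cast primeTuples_mono a h1
  have m2 : (primeTuples a N : ℝ) ≤ primeTuples a N₂ := by exact_mod_cast primeTuples_mono a h3
  have q1 : (2 : ℝ) ≤ N₁ := by exact_mod_cast h2
  have q2 : (N₁ : ℝ) ≤ N := by exact_mod_cast h1
  have q3 : (N : ℝ) ≤ N₂ := by exact_mod_cast h3
  have l1 : 0 < Real.log (N₁ : ℝ) := Real.log_pos (by linarith)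
  have l2 : Real.log (N₁ : ℝ) ≤ Real.log N := Real.log_le_log (by linarith) q2
  have l3 : Real.log (N : ℝ) ≤ Real.log N₂ := Real.log_le_log (by linarith) q3
  obtain ⟨f, hf⟩ : ∃ f, f = (N : ℝ) / Real.log N ^ (s + 1) := ⟨_, rfl⟩
  obtain ⟨f₁, hf₁⟩ : ∃ f, f = (N₁ : ℝ) / Real.log N₁ ^ (s + 1) := ⟨_, rfl⟩
  obtain ⟨f₂, hf₂⟩ : ∃ f, f = (N₂ : ℝ) / Real.log N₂ ^ (s + 1) := ⟨_, rfl⟩
  have hlog : 0 < Real.log (N : ℝ) := by linarith
  have e2 : f₂ ≤ (1 + ε / 8) * f := by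
    rw [hf₂, hf, ← mul_div_assoc]
    apply div_le_div₀ (by positivity) _ (by positivity) (pow_le_pow_left₀ hlog.le l3 _)
    nlinarith
  have e1 : f ≤ (1 + ε / 8) * f₁ := by
    rw [hf₁, hf, ← mul_div_assoc]
    exact div_le_div₀ (by positivity) (q3.trans hr) (by positivity) (pow_le_pow_left₀ l1.le l2 _)
  have hN0 : (0 : ℝ) < N := by linarith
  have hN10 : (0 : ℝ) < N₁ := by linarith
  have hf0 : 0 < f := by rw [hf]; positivity
  have hf10 : 0 < f₁ := by rw [hf₁]; positivity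
  rw [← hf₁] at w1
  rw [← hf₂] at w2
  rw [← hf]
  obtain ⟨w1a, -⟩ := abs_le.1 w1
  obtain ⟨-, w2b⟩ := abs_le.1 w2
  have hA : (primeTuples a N : ℝ) ≤ (1 + ε) * (S * f) := by
    have a1 : (primeTuples a N : ℝ) ≤ (1 + ε / 8) * (S * f₂) := by linarith
    have a2 : (1 + ε / 8) * (S * f₂) ≤ (1 + ε / 8) * (S * ((1 + ε / 8) * f)) := by gcongr
    have a3 : (1 + ε / 8) * (S * ((1 + ε / 8) * f)) ≤ (1 + ε) * (S * f) := by
      have : (1 + ε / 8) * (S * ((1 + ε / 8) * f)) = (1 + ε / 8) * (1 + ε / 8) * (S * f) := by ring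
      rw [this]
      apply mul_le_mul_of_nonneg_right _ (by positivity)
      nlinarith
    linarith
  have hB : (1 - ε) * (S * f) ≤ (primeTuples a N : ℝ) := by
    have b1 : (1 - ε / 8) * (S * f₁) ≤ (primeTuples a N : ℝ) := by linarith
    have b2 : (1 - ε) * (S * f) ≤ (1 - ε) * (S * ((1 + ε / 8) * f₁)) := by
      apply mul_le_mul_of_nonneg_left _ (by linarith)
      exact mul_le_mul_of_nonneg_left e1 hS0.le
    have b3 : (1 - ε) * (S * ((1 + ε / 8) * f₁)) ≤ (1 - ε / 8) * (S * f₁) := by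
      have : (1 - ε) * (S * ((1 + ε / 8) * f₁)) = (1 - ε) * (1 + ε / 8) * (S * f₁) := by ring
      rw [this]
      apply mul_le_mul_of_nonneg_right _ (by positivity)
      nlinarith
    linarith
  rw [abs_le]
  constructor <;> linarith

open Classical in
/-- prime tuples near independent random integers, at one scale -/
theorem tup_prob (s : ℕ) (hs : 1 ≤ s) {b : ℕ} (hb : 2 ≤ b) (κ : Fin s → ℤ) (C : Fin s → ℕ → (ℕ → ℝ) → Prop)
    (hC : ∀ i, TCls b (κ i) (C i)) (B Cc J₂ W U : ℕ) (ε : ℝ) (hε : 0 < ε) :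
    ∃ k₀ : ℕ, ∀ k : ℕ, k₀ ≤ k → ∀ p : Fin s → ℕ → ℝ, (∀ i, C i k (p i)) →
    ∀ c : Fin s → ℤ, (∀ i, |c i| ≤ B * (b : ℤ) ^ k) → ∀ N : ℕ, b ^ k ≤ Cc * N → N ≤ k ^ J₂ * b ^ k →
    ∑ v ∈ Fintype.piFinset (fun _ : Fin s => range (b ^ k)), (if ∀ q : Fin s → ℕ,
      (∀ i, |(q i : ℤ) - (c i + κ i * v i)| ≤ (k : ℤ) ^ W) → HLs ε U N q then 0 else ∏ i, p i (v i)) ≤ 1 / (k : ℝ) ^ U := by
  obtain ⟨U', hU'⟩ : ∃ U', U' = U + s * (W + 1) := ⟨_, rfl⟩
  have hlaw := fun i => (hC i).law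
  choose F hF hlaw using hlaw
  obtain ⟨V, hV⟩ : ∃ V, V = 2 * (2 * U' + 5 + s + 2) + 6 := ⟨_, rfl⟩
  choose cc m₀ hlaw using fun i => hlaw i (2 * (J₂ + 1)) V
  obtain ⟨c', hc'⟩ : ∃ c', c' = ∑ i, cc i := ⟨_, rfl⟩
  obtain ⟨m', hm'⟩ : ∃ m', m' = ∑ i, m₀ i := ⟨_, rfl⟩
  obtain ⟨F', hF'⟩ : ∃ F', F' = ∑ i, F i := ⟨_, rfl⟩
  obtain ⟨κ', hκ'⟩ : ∃ κ', κ' = ∑ i, (κ i).natAbs := ⟨_, rfl⟩
  have hci : ∀ i, cc i ≤ c' := fun i => by rw [hc']; exact single_le_sum (fun _ _ => Nat.zero_le _) (mem_univ i)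
  have hmi : ∀ i, m₀ i ≤ m' := fun i => by rw [hm']; exact single_le_sum (fun _ _ => Nat.zero_le _) (mem_univ i)
  have hFi : ∀ i, F i ≤ F' := fun i => by rw [hF']; exact single_le_sum (fun _ _ => Nat.zero_le _) (mem_univ i)
  have hκi : ∀ i, (κ i).natAbs ≤ κ' := fun i => by
    rw [hκ']
    exact single_le_sum (f := fun i => (κ i).natAbs) (fun _ _ => Nat.zero_le _) (mem_univ i)
  obtain ⟨D, hD⟩ : ∃ D, D = F' + B + κ' + 1 := ⟨_, rfl⟩
  obtain ⟨k2, h2⟩ := Pool.Agent.N84.MD.GB.lev b D Cc J₂ hb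
  obtain ⟨K₀, hmain⟩ := Pool.Agent.Y885.tl_tuples s b 15 c' (b * (1 + (D + 1) * Cc)) U' hs hb (by norm_num) ε hε
  obtain ⟨k4, h4⟩ := Pool.Agent.N625.PT.pow_le_pow_digits b hb W
  refine ⟨k2 + m' + K₀ + k4 + 4 + 3 * Cc, fun k hk p hp c hc N hN1 hN2 => ?_⟩
  have hkbk : k < b ^ k := Nat.lt_pow_self (by omega)
  have hN3 : 3 ≤ N := by
    by_contra hcon
    push Not at hcon
    have : Cc * N ≤ Cc * 2 := Nat.mul_le_mul_left _ (by omega)
    omega
  have hk3 : (3 : ℝ) ≤ k := by exact_mod_cast (by omega : 3 ≤ k)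
  have hk0 : (0 : ℝ) < k := by linarith
  obtain ⟨e, he1, he2, he3, he4⟩ := h2 k (by omega) N hN1 hN2
  obtain ⟨I, hI⟩ : ∃ I : Finset (Fin s → ℤ), I = Fintype.piFinset (fun _ : Fin s => Icc (-(k : ℤ) ^ W) ((k : ℤ) ^ W)) := ⟨_, rfl⟩
  have key := union_gen (Fintype.piFinset (fun _ : Fin s => range (b ^ k))) (fun v => ∏ i, p i (v i))
    (fun v _ => prod_nonneg fun i _ => (hC i).nonneg k (p i) (hp i) _) I
    (fun σ v => (∀ i, 0 ≤ c i + σ i + κ i * v i) ∧ ¬ HLs ε U' N (fun i => (c i + σ i + κ i * v i).toNat))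
    (fun v => ∀ q : Fin s → ℕ, (∀ i, |(q i : ℤ) - (c i + κ i * v i)| ≤ (k : ℤ) ^ W) → HLs ε U N q) (by
      intro v _ hv
      push Not at hv
      obtain ⟨q, hq, hbad⟩ := hv
      refine ⟨fun i => (q i : ℤ) - (c i + κ i * v i), ?_, ?_⟩
      · rw [hI, Fintype.mem_piFinset]
        intro i
        rw [mem_Icc]
        exact abs_le.1 (hq i)
      · have e1 : ∀ i, c i + ((q i : ℤ) - (c i + κ i * v i)) + κ i * v i = (q i : ℤ) := by
          intro i
          ring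
        simp only [e1, Int.toNat_natCast]
        exact ⟨fun i => by positivity, fun hgood => hbad (HLs_mono (by omega) hN3 hgood)⟩) (1 / (k : ℝ) ^ U') (by
      intro σ hmem
      rw [hI, Fintype.mem_piFinset] at hmem
      have hσi : ∀ i, |σ i| ≤ (k : ℤ) ^ W := fun i => abs_le.2 (mem_Icc.1 (hmem i))
      have hlog : ∀ i, Nat.log b (F i * 1) ≤ e := by
        intro i
        have g1 : F i * 1 ≤ b ^ e := by
          have := hFi i
          omega
        calc Nat.log b (F i * 1) ≤ Nat.log b (b ^ e) := Nat.log_mono_right g1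
          _ = e := Nat.log_pow (by omega) _
      have hbk : (0 : ℤ) < (b : ℤ) ^ k := by
        have : 0 < b ^ k := Nat.pow_pos (by omega)
        exact_mod_cast this
      have hsize : ∀ i, ∀ v ∈ range (b ^ k), |c i + σ i + κ i * v| ≤ (D : ℤ) * (b : ℤ) ^ k := by
        intro i v hv
        rw [mem_range] at hv
        have v0 : (0 : ℤ) ≤ (v : ℤ) := Int.natCast_nonneg _
        have v1 : ((v : ℕ) : ℤ) ≤ (b : ℤ) ^ k := by exact_mod_cast hv.le
        have hkW' : ((k : ℤ)) ^ W ≤ (b : ℤ) ^ k := by exact_mod_cast h4 k (by omega)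
        have q1 := abs_add_le (c i + σ i) (κ i * (v : ℤ))
        have q2 := abs_add_le (c i) (σ i)
        have q3 : |κ i * (v : ℤ)| ≤ ((κ i).natAbs : ℤ) * (b : ℤ) ^ k := by
          rw [abs_mul, Int.abs_eq_natAbs (κ i), abs_of_nonneg v0]
          exact mul_le_mul_of_nonneg_left v1 (Int.natCast_nonneg _)
        have q4 : ((κ i).natAbs : ℤ) ≤ (κ' : ℤ) := by exact_mod_cast hκi i
        have q5 : ((κ i).natAbs : ℤ) * (b : ℤ) ^ k ≤ (κ' : ℤ) * (b : ℤ) ^ k := mul_le_mul_of_nonneg_right q4 hbk.le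
        have q6 : (0 : ℤ) ≤ (F' : ℤ) * (b : ℤ) ^ k := by positivity
        have q7 := hc i
        have q8 := hσi i
        rw [hD]
        push_cast
        linarith
      have t := hmain (k + e) (by omega) ℕ inferInstance (fun _ => range (b ^ k)) p
        (fun i v => c i + σ i + κ i * v) (fun i => by
          have h5 := hlaw i k (by have := hmi i; omega) e he3 1 le_rfl (hlog i) (p i) (hp i) (c i + σ i)
          have e1 : (fun v : ℕ => ((1 : ℕ) : ℤ) * (c i + σ i + κ i * v)) = fun v : ℕ => c i + σ i + κ i * (v : ℤ) := by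
            funext v
            push_cast
            ring
          rw [e1] at h5
          rw [← hV]
          exact tlaw_mono_c (by omega) (hci i) h5) (fun i => (hC i).sum k (p i) (hp i)) N he2 (by omega) (by
          intro i v hv
          have h5 := hsize i v hv
          rw [abs_le] at h5
          have h6 : (N : ℤ) + ((D : ℤ) + 1) * (b : ℤ) ^ k ≤ (b : ℤ) ^ (k + e) := by exact_mod_cast he1
          have h7 : (0 : ℤ) ≤ (N : ℤ) := Int.natCast_nonneg _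
          constructor
          · linarith [h5.1]
          · linarith [h5.2])
        (fun v => (∀ i, 0 ≤ c i + σ i + κ i * v i) ∧ ¬ HLs ε U' N (fun i => (c i + σ i + κ i * v i).toNat))
        (fun _ => Classical.propDecidable _) (fun v _ hv => hv)
      refine le_trans t ?_
      apply one_div_le_one_div_of_le (by positivity)
      apply pow_le_pow_left₀ hk0.le
      exact_mod_cast (by omega : k ≤ k + e))
  refine key.trans ?_
  have hcard : (I.card : ℝ) ≤ ((k : ℝ) ^ (W + 1)) ^ s := by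
    rw [hI, Fintype.card_piFinset]
    simp only [Int.card_Icc, prod_const, card_univ, Fintype.card_fin]
    push_cast
    apply pow_le_pow_left₀ (by positivity)
    have e1 : (((k : ℤ) ^ W + 1 - -(k : ℤ) ^ W).toNat : ℝ) = 2 * (k : ℝ) ^ W + 1 := by
      have : (((k : ℤ) ^ W + 1 - -(k : ℤ) ^ W).toNat : ℤ) = 2 * (k : ℤ) ^ W + 1 := by
        have h0 : (0 : ℤ) ≤ (k : ℤ) ^ W := by positivity
        rw [Int.toNat_of_nonneg (by linarith)]
        ring
      exact_mod_cast this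
    rw [e1]
    have e2 : (1 : ℝ) ≤ (k : ℝ) ^ W := one_le_pow₀ (by linarith)
    rw [pow_succ]
    nlinarith
  calc (I.card : ℝ) * (1 / (k : ℝ) ^ U') ≤ ((k : ℝ) ^ (W + 1)) ^ s * (1 / (k : ℝ) ^ U') :=
        mul_le_mul_of_nonneg_right hcard (by positivity)
    _ = 1 / (k : ℝ) ^ U := by
        rw [hU', pow_add (k : ℝ) U, mul_comm s, pow_mul (k : ℝ) (W + 1) s]
        field_simp

open Classical in
/-- prime tuples near independent random integers, at all scales -/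
theorem all_scales (s : ℕ) (hs : 1 ≤ s) {b : ℕ} (hb : 2 ≤ b) (κ : Fin s → ℤ) (C : Fin s → ℕ → (ℕ → ℝ) → Prop)
    (hC : ∀ i, TCls b (κ i) (C i)) (B Cc J₂ W U : ℕ) (ε : ℝ) (hε : 0 < ε) (hε1 : ε ≤ 1) :
    ∃ k₀ : ℕ, ∀ k : ℕ, k₀ ≤ k → ∀ p : Fin s → ℕ → ℝ, (∀ i, C i k (p i)) →
    ∀ c : Fin s → ℤ, (∀ i, |c i| ≤ B * (b : ℤ) ^ k) →
    ∑ v ∈ Fintype.piFinset (fun _ : Fin s => range (b ^ k)), (if ∀ N : ℕ, b ^ k ≤ Cc * N → N ≤ k ^ J₂ * b ^ k →
      ∀ q : Fin s → ℕ, (∀ i, |(q i : ℤ) - (c i + κ i * v i)| ≤ (k : ℤ) ^ W) → Law ε N q then 0 else ∏ i, p i (v i)) ≤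
      1 / (k : ℝ) ^ U := by
  obtain ⟨M, hM⟩ := exists_nat_ge (8 / ε)
  have hM8 : 8 ≤ ε * M := by
    rw [div_le_iff₀ hε] at hM
    linarith
  have hM1 : 1 ≤ M := by
    by_contra hcon
    have : M = 0 := by omega
    rw [this] at hM8
    norm_num at hM8
  obtain ⟨k1, h1⟩ := tup_prob s hs hb κ C hC B (2 * Cc) (J₂ + 1) W (U + 4) (ε / 8) (by positivity)
  obtain ⟨k4, h4⟩ := Pool.Agent.N625.PT.pow_le_pow_digits b hb (J₂ + 1)
  refine ⟨k1 + k4 + 2 * b + (M + 4) * (Cc + 2), fun k hk p hp c hc => ?_⟩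
  have hkM : (M + 4) * (Cc + 2) ≤ k := by omega
  have hkM1 : M + 4 ≤ k := by nlinarith
  have hkbk : k < b ^ k := Nat.lt_pow_self (by omega)
  have hk3 : (3 : ℝ) ≤ k := by exact_mod_cast (by omega : 3 ≤ k)
  have hk0 : (0 : ℝ) < k := by linarith
  have hj : ∀ j : ℕ, 2 ^ j ≤ k ^ (J₂ + 1) * b ^ k → j < k ^ 2 + 1 := by
    intro j hj
    have g1 : k ^ (J₂ + 1) * b ^ k ≤ b ^ k * b ^ k := Nat.mul_le_mul_right _ (h4 k (by omega))
    have g2 : b ^ k * b ^ k ≤ 2 ^ (k ^ 2) := by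
      calc b ^ k * b ^ k = b ^ (2 * k) := by rw [← pow_add]; congr 1; ring
        _ ≤ (2 ^ b) ^ (2 * k) := Nat.pow_le_pow_left Nat.lt_two_pow_self.le _
        _ = 2 ^ (b * (2 * k)) := by rw [← pow_mul]
        _ ≤ 2 ^ (k ^ 2) := Nat.pow_le_pow_right (by norm_num) (by nlinarith [show 2 * b ≤ k by omega])
    have g3 : 2 ^ j ≤ 2 ^ (k ^ 2) := (hj.trans g1).trans g2
    have g4 := (Nat.pow_le_pow_iff_right (by norm_num : 1 < 2)).1 g3
    omega
  obtain ⟨I, hI⟩ : ∃ I : Finset (ℕ × ℕ), I = (range (k ^ 2 + 1)) ×ˢ (Icc M (2 * M)) := ⟨_, rfl⟩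
  have key := union_gen (Fintype.piFinset (fun _ : Fin s => range (b ^ k))) (fun v => ∏ i, p i (v i))
    (fun v _ => prod_nonneg fun i _ => (hC i).nonneg k (p i) (hp i) _) I
    (fun z v => (b ^ k ≤ 2 * Cc * (z.2 * 2 ^ z.1) ∧ z.2 * 2 ^ z.1 ≤ k ^ (J₂ + 1) * b ^ k) ∧
      ¬ ∀ q : Fin s → ℕ, (∀ i, |(q i : ℤ) - (c i + κ i * v i)| ≤ (k : ℤ) ^ W) → HLs (ε / 8) (U + 4) (z.2 * 2 ^ z.1) q)
    (fun v => ∀ N : ℕ, b ^ k ≤ Cc * N → N ≤ k ^ J₂ * b ^ k →
      ∀ q : Fin s → ℕ, (∀ i, |(q i : ℤ) - (c i + κ i * v i)| ≤ (k : ℤ) ^ W) → Law ε N q) (by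
      intro v _ hv
      push Not at hv
      obtain ⟨N, hN1, hN2, q, hq, hbad⟩ := hv
      have hNM : M + 2 ≤ N := by
        by_contra hcon
        push Not at hcon
        have : Cc * N ≤ Cc * (M + 2) := Nat.mul_le_mul_left _ hcon.le
        nlinarith
      obtain ⟨i, hi⟩ : ∃ i, i = Nat.log 2 (N / M) := ⟨_, rfl⟩
      obtain ⟨r, hr⟩ : ∃ r, r = N / 2 ^ i := ⟨_, rfl⟩
      have h2i : 0 < 2 ^ i := Nat.pow_pos (by norm_num)
      have hNM0 : N / M ≠ 0 := by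
        have := Nat.div_pos (by omega : M ≤ N) (by omega : 0 < M)
        omega
      have a1 : 2 ^ i ≤ N / M := by rw [hi]; exact Nat.pow_log_le_self 2 hNM0
      have a2 : N / M < 2 ^ (i + 1) := by rw [hi]; exact Nat.lt_pow_succ_log_self (by norm_num) _
      have a3 : 2 ^ i * M ≤ N := (Nat.le_div_iff_mul_le (by omega)).1 a1
      have a4 : N < 2 ^ (i + 1) * M := (Nat.div_lt_iff_lt_mul (by omega)).1 a2
      have r1 : M ≤ r := by
        rw [hr]
        exact (Nat.le_div_iff_mul_le h2i).2 (by rw [mul_comm]; exact a3)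
      have r2 : r < 2 * M := by
        rw [hr]
        refine (Nat.div_lt_iff_lt_mul h2i).2 ?_
        calc N < 2 ^ (i + 1) * M := a4
          _ = 2 * M * 2 ^ i := by rw [pow_succ]; ring
      have r3 : r * 2 ^ i ≤ N := by rw [hr]; exact Nat.div_mul_le_self _ _
      have r4 : N < (r + 1) * 2 ^ i := by
        rw [hr]
        have := Nat.lt_div_mul_add (a := N) h2i
        calc N < N / 2 ^ i * 2 ^ i + 2 ^ i := this
          _ = (N / 2 ^ i + 1) * 2 ^ i := by ring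
      have r5 : (r + 1) * 2 ^ i ≤ 2 * (r * 2 ^ i) := by nlinarith
      have hJ : k ^ J₂ * b ^ k * 2 ≤ k ^ (J₂ + 1) * b ^ k := by
        rw [pow_succ]
        have : 0 < k ^ J₂ * b ^ k := Nat.mul_pos (Nat.pow_pos (by omega)) (Nat.pow_pos (by omega))
        nlinarith
      have g1 : b ^ k ≤ 2 * Cc * (r * 2 ^ i) := by
        calc b ^ k ≤ Cc * N := hN1
          _ ≤ Cc * (2 * (r * 2 ^ i)) := Nat.mul_le_mul_left _ (by omega)
          _ = 2 * Cc * (r * 2 ^ i) := by ring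
      have g2 : r * 2 ^ i ≤ k ^ (J₂ + 1) * b ^ k := by omega
      have g3 : b ^ k ≤ 2 * Cc * ((r + 1) * 2 ^ i) := g1.trans (Nat.mul_le_mul_left _ (by nlinarith))
      have g4 : (r + 1) * 2 ^ i ≤ k ^ (J₂ + 1) * b ^ k := by omega
      have hi2 : i < k ^ 2 + 1 := hj i ((Nat.le_mul_of_pos_left _ (by omega)).trans g2)
      by_contra hcon
      push Not at hcon
      have c1 := hcon (i, r) (by rw [hI, mem_product, mem_range, mem_Icc]; exact ⟨hi2, r1, by omega⟩) ⟨g1, g2⟩ q hq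
      have c2 := hcon (i, r + 1) (by rw [hI, mem_product, mem_range, mem_Icc]; exact ⟨hi2, by omega, by omega⟩) ⟨g3, g4⟩ q hq
      refine hbad (interp ε hε hε1 N (r * 2 ^ i) ((r + 1) * 2 ^ i) ?_ r3 r4.le ?_ (U + 4) q c1 c2)
      · have : M + 2 ≤ 2 * (r * 2 ^ i) := by omega
        by_contra hc2
        push Not at hc2
        omega
      · have rr : (M : ℝ) ≤ r := by exact_mod_cast r1
        have p0 : (0 : ℝ) < (2 : ℝ) ^ i := by positivity
        push_cast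
        have : 1 ≤ ε / 8 * r := by nlinarith
        nlinarith) (1 / (k : ℝ) ^ (U + 4)) (by
      rintro ⟨i, r⟩ _
      simp only
      by_cases hz : b ^ k ≤ 2 * Cc * (r * 2 ^ i) ∧ r * 2 ^ i ≤ k ^ (J₂ + 1) * b ^ k
      · have t := h1 k (by omega) p hp c hc (r * 2 ^ i) hz.1 hz.2
        refine le_trans (le_of_eq (sum_congr rfl fun v _ => ?_)) t
        simp only [hz, true_and]
        split_ifs <;> rfl
      · simp only [hz, false_and, if_false, sum_const_zero]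
        positivity)
  refine key.trans ?_
  have hcard : (I.card : ℝ) ≤ (k : ℝ) ^ 4 := by
    rw [hI, card_product, card_range, Nat.card_Icc]
    have g1 : 2 * M + 1 - M = M + 1 := by omega
    rw [g1]
    have g2 : (k ^ 2 + 1) * (M + 1) ≤ k ^ 4 := by
      calc (k ^ 2 + 1) * (M + 1) ≤ k ^ 3 * k := Nat.mul_le_mul (by nlinarith [sq_nonneg k]) (by omega)
        _ = k ^ 4 := by ring
    exact_mod_cast g2
  calc (I.card : ℝ) * (1 / (k : ℝ) ^ (U + 4)) ≤ (k : ℝ) ^ 4 * (1 / (k : ℝ) ^ (U + 4)) :=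
        mul_le_mul_of_nonneg_right hcard (by positivity)
    _ = 1 / (k : ℝ) ^ U := by
        rw [pow_add]
        field_simp

/-- the probability of an event which depends on a random vector of integers -/
theorem ev_le {Ω : Type*} [MeasurableSpace Ω] (ν : Measure Ω) (s R : ℕ) (X : Ω → Fin s → ℕ) (hX : ∀ ω i, X ω i < R)
    (g : (Fin s → ℕ) → Prop) [DecidablePred g] (p : Fin s → ℕ → ℝ) (hp0 : ∀ i v, 0 ≤ p i v) (t : ℝ) (ht : 0 ≤ t)
    (hlaw : ∀ v : Fin s → ℕ, (∀ i, v i < R) → ν {ω | ∀ i, X ω i = v i} ≤ ENNReal.ofReal (t * ∏ i, p i (v i))) :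
    ν {ω | ¬ g (X ω)} ≤ ENNReal.ofReal (t * ∑ v ∈ Fintype.piFinset (fun _ : Fin s => range R),
      (if g v then 0 else ∏ i, p i (v i))) := by
  classical
  have h1 : {ω | ¬ g (X ω)} ⊆
      ⋃ v ∈ (Fintype.piFinset (fun _ : Fin s => range R)).filter (fun v => ¬ g v), {ω | ∀ i, X ω i = v i} := by
    intro ω hω
    simp only [Set.mem_iUnion]
    exact ⟨X ω, mem_filter.2 ⟨Fintype.mem_piFinset.2 fun i => mem_range.2 (hX ω i), hω⟩, fun i => rfl⟩
  refine (measure_mono h1).trans ((measure_biUnion_finset_le _ _).trans ?_)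
  have h2 : ∀ v : Fin s → ℕ, 0 ≤ t * ∏ i, p i (v i) := fun v => mul_nonneg ht (prod_nonneg fun i _ => hp0 i _)
  have h3 : t * ∑ v ∈ Fintype.piFinset (fun _ : Fin s => range R), (if g v then 0 else ∏ i, p i (v i)) =
      ∑ v ∈ (Fintype.piFinset (fun _ : Fin s => range R)).filter (fun v => ¬ g v), t * ∏ i, p i (v i) := by
    rw [mul_sum, sum_filter]
    refine sum_congr rfl fun v _ => ?_
    by_cases hv : g v
    · rw [if_pos hv, if_neg (not_not.2 hv), mul_zero]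
    · rw [if_neg hv, if_pos hv]
  rw [h3, ENNReal.ofReal_sum_of_nonneg fun v _ => h2 v]
  refine sum_le_sum fun v hv => hlaw v fun i => ?_
  exact mem_range.1 (Fintype.mem_piFinset.1 (mem_filter.1 hv).1 i)

/-- the law of the first digits of a random point of the cube -/
theorem unif_pi (s R : ℕ) (hR : 0 < R) (v : Fin s → ℕ) (hv : ∀ i, v i < R) :
    (Measure.pi fun _ : Fin s => volume.restrict (Set.Ico (0 : ℝ) 1)) {ξ : Fin s → ℝ | ∀ i, ⌊(R : ℝ) * ξ i⌋₊ % R = v i} =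
      ENNReal.ofReal (∏ _i : Fin s, (1 / (R : ℝ))) := by
  have : IsProbabilityMeasure (volume.restrict (Set.Ico (0 : ℝ) 1)) :=
    ⟨by rw [Measure.restrict_apply_univ, Real.volume_Ico]; norm_num⟩
  have h1 : {ξ : Fin s → ℝ | ∀ i, ⌊(R : ℝ) * ξ i⌋₊ % R = v i} =
      Set.univ.pi fun i => {t : ℝ | ⌊(R : ℝ) * t⌋₊ % R = v i} := by
    ext ξ
    simp only [Set.mem_ofPred_eq, Set.mem_pi, Set.mem_univ, true_implies]
  rw [h1, Measure.pi_pi, ENNReal.ofReal_prod_of_nonneg fun i _ => by positivity]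
  exact prod_congr rfl fun i _ => Pool.Agent.N84.MD.unif R hR (v i) (hv i)

end Pool.Agent.N84.MD.TT
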